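import Pool.Agent.Lib.MP_2696ff_co.Core

/-!
# MP_2696ff_co: the characteristic polynomial of a split graph
-/

set_option autoImplicit false

namespace Pool.Agent.MP2696

open Matrix Polynomial

variable {κ τ : Type*} [Fintype κ] [DecidableEq κ] [Fintype τ] [DecidableEq τ]

/-- The adjacency matrix of the split graph with clique `κ`, independent set `τ`. -/
def blk (C : Matrix κ τ ℤ) : Matrix (κ ⊕ τ) (κ ⊕ τ) ℤ :=
  Matrix.fromBlocks (J ℤ κ - 1) C C.transpose 0

theorem charpoly_comp (S : Matrix κ κ ℤ) (q : ℤ[X]) :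
    S.charpoly.comp q = (Matrix.scalar κ q - S.map C).det := by
  rw [← Matrix.eval_charpoly, Matrix.charpoly_map, eval_map]
  rfl

theorem det_affine {R : Type*} [CommRing R] (N : Matrix κ κ R) (t : R) :
    (N - t • J R κ).det = N.det + t * ((N - J R κ).det - N.det) := by
  let M0 : Matrix (κ ⊕ Unit) (κ ⊕ Unit) R :=
    Matrix.fromBlocks N 0 (Matrix.of fun _ _ => 1) 1
  let c1 : κ ⊕ Unit → R := Sum.elim (fun _ => 1) (fun _ => 0)
  let c0 : κ ⊕ Unit → R := Sum.elim (fun _ => 0) (fun _ => 1)
  have h : ∀ s : R, (N - s • J R κ).det =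
      (M0.updateCol (Sum.inr ()) c0).det + s * (M0.updateCol (Sum.inr ()) c1).det := by
    intro s
    rw [← det_updateCol_smul, ← det_updateCol_add]
    have h1 : M0.updateCol (Sum.inr ()) (c0 + s • c1) =
        Matrix.fromBlocks N (Matrix.of fun _ _ => s) (Matrix.of fun _ _ => 1) 1 := by
      ext a b
      rcases a with a | a <;> rcases b with b | b <;>
        simp [M0, c0, c1, Matrix.updateCol_apply]
    rw [h1, det_fromBlocks_one₂₂]
    congr 1
    ext a b
    simp [J, Matrix.mul_apply]
  have h0 := h 0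
  have h1 := h 1
  rw [zero_smul, sub_zero, zero_mul, add_zero] at h0
  rw [one_smul, one_mul] at h1
  rw [h t, h1, h0]
  ring

theorem charpoly_blk (C : Matrix κ τ ℤ) :
    X ^ Fintype.card κ * (blk C).charpoly = X ^ Fintype.card τ *
      ((C * C.transpose).charpoly.comp (X ^ 2 + X) - X * (W (C * C.transpose)).comp (X ^ 2 + X)) := by
  set S := C * C.transpose with hS
  set C' : Matrix κ τ ℤ[X] := C.map Polynomial.C with hC'
  have h1 : charmatrix (blk C) =
      Matrix.fromBlocks (((X : ℤ[X]) + 1) • 1 - J ℤ[X] κ) (-C') (-C'.transpose) ((X : ℤ[X]) • 1) := by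
    ext a b : 1
    rcases a with a | a <;> rcases b with b | b
    · rw [charmatrix_apply]
      by_cases hab : a = b
      · subst hab
        simp [blk, J]
      · have : (Sum.inl a : κ ⊕ τ) ≠ Sum.inl b := fun h => hab (Sum.inl_injective h)
        rw [Matrix.diagonal_apply_ne _ this]
        simp [blk, J, hab]
    · rw [charmatrix_apply, Matrix.diagonal_apply_ne _ (by simp)]
      simp [blk, hC']
    · rw [charmatrix_apply, Matrix.diagonal_apply_ne _ (by simp)]
      simp [blk, hC']
    · rw [charmatrix_apply]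
      by_cases hab : a = b
      · subst hab
        simp [blk]
      · have : (Sum.inr a : κ ⊕ τ) ≠ Sum.inr b := fun h => hab (Sum.inr_injective h)
        rw [Matrix.diagonal_apply_ne _ this]
        simp [blk, hab]
  have h2 : charmatrix (blk C) * Matrix.fromBlocks ((X : ℤ[X]) • 1) 0 C'.transpose 1 =
      Matrix.fromBlocks (Matrix.scalar κ ((X : ℤ[X]) ^ 2 + X) - S.map Polynomial.C -
        (X : ℤ[X]) • J ℤ[X] κ) (-C') 0 ((X : ℤ[X]) • 1) := by
    rw [h1, Matrix.fromBlocks_multiply]
    congr 1
    · rw [hS, Matrix.map_mul]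
      ext a b : 1
      simp only [Matrix.add_apply, Matrix.sub_apply, Matrix.mul_smul, Matrix.mul_one,
        Matrix.smul_apply, smul_eq_mul, Matrix.neg_mul, Matrix.neg_apply, Matrix.scalar_apply,
        Matrix.transpose_map, hC']
      by_cases hab : a = b
      · subst hab
        simp only [Matrix.one_apply_eq, Matrix.diagonal_apply_eq]
        ring
      · simp only [Matrix.one_apply_ne hab, Matrix.diagonal_apply_ne _ hab]
        ring
    · simp
    · simp
    · simp
  have h3 := congrArg Matrix.det h2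
  rw [det_mul, det_fromBlocks_zero₁₂, det_fromBlocks_zero₂₁, det_smul, det_smul, det_one, det_one,
    det_affine] at h3
  have h4 : (Matrix.scalar κ ((X : ℤ[X]) ^ 2 + X) - S.map Polynomial.C - J ℤ[X] κ).det =
      (S.charpoly - W S).comp (X ^ 2 + X) := by
    rw [← charpoly_add_J, charpoly_comp]
    congr 1
    ext a b : 1
    simp [J]
    ring
  rw [h4, ← charpoly_comp, sub_comp] at h3
  rw [Matrix.charpoly, mul_comm]
  linear_combination h3

theorem sep_aux (a b : ℤ[X]) (h : a.comp (X ^ 2 + X) - X * b.comp (X ^ 2 + X) = 0) :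
    a = 0 ∧ b = 0 := by
  have hq : ((X : ℤ[X]) ^ 2 + X).natDegree = 2 := by
    compute_degree!
  have h' : a.comp (X ^ 2 + X) = X * b.comp (X ^ 2 + X) := sub_eq_zero.1 h
  have hcomp0 : ∀ p : ℤ[X], p.comp (X ^ 2 + X) = 0 → p = 0 := by
    intro p hp
    by_contra hne
    have h1 : (p.comp (X ^ 2 + X)).natDegree = p.natDegree * 2 := by rw [natDegree_comp, hq]
    rw [hp, natDegree_zero] at h1
    have h2 : p.natDegree = 0 := by omega
    obtain ⟨c, hc⟩ := natDegree_eq_zero.1 h2
    rw [← hc, C_comp] at hp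
    exact hne (hc ▸ hp)
  have hb : b = 0 := by
    by_contra hb
    have h1 : (X * b.comp (X ^ 2 + X)).natDegree = b.natDegree * 2 + 1 := by
      rw [natDegree_X_mul (fun h0 => hb (hcomp0 b h0)), natDegree_comp, hq]
    rw [← h', natDegree_comp, hq] at h1
    omega
  refine ⟨?_, hb⟩
  rw [hb, zero_comp, mul_zero] at h'
  exact hcomp0 a h'

theorem sep (a b a' b' : ℤ[X])
    (h : a.comp (X ^ 2 + X) - X * b.comp (X ^ 2 + X) =
      a'.comp (X ^ 2 + X) - X * b'.comp (X ^ 2 + X)) : a = a' ∧ b = b' := by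
  have := sep_aux (a - a') (b - b') (by
    rw [sub_comp, sub_comp]
    linear_combination h)
  exact ⟨sub_eq_zero.1 this.1, sub_eq_zero.1 this.2⟩

/-- The equivalence for the vertices without a vertex of the clique. -/
def eqv (i : κ) : {j : κ // j ≠ i} ⊕ τ ≃ {w : κ ⊕ τ // w ≠ Sum.inl i} where
  toFun := Sum.elim (fun j => ⟨Sum.inl j.1, fun h => j.2 (Sum.inl_injective h)⟩)
    (fun t => ⟨Sum.inr t, Sum.inr_ne_inl⟩)
  invFun := fun w => match w with
    | ⟨Sum.inl j, h⟩ => Sum.inl ⟨j, fun h' => h (by rw [h'])⟩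
    | ⟨Sum.inr t, _⟩ => Sum.inr t
  left_inv := by rintro (j | t) <;> rfl
  right_inv := by rintro ⟨j | t, h⟩ <;> rfl

theorem charpoly_del_blk (C : Matrix κ τ ℤ) (i : κ) :
    (del (blk C) (Sum.inl i)).charpoly =
      (blk (C.submatrix (Subtype.val : {j : κ // j ≠ i} → κ) id)).charpoly := by
  rw [← Matrix.charpoly_reindex (eqv i)
    (blk (C.submatrix (Subtype.val : {j : κ // j ≠ i} → κ) id))]
  congr 1
  ext ⟨a, ha⟩ ⟨b, hb⟩
  rcases a with a | a <;> rcases b with b | b
  · by_cases hab : a = b
    · subst hab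
      simp [del, blk, eqv, J]
    · have : (⟨a, fun h' => ha (by rw [h'])⟩ : {j : κ // j ≠ i}) ≠
        ⟨b, fun h' => hb (by rw [h'])⟩ := fun h => hab (congrArg Subtype.val h)
      simp [del, blk, eqv, J, hab]
  · simp [del, blk, eqv]
  · simp [del, blk, eqv]
  · simp [del, blk, eqv]

theorem del_mul_transpose (C : Matrix κ τ ℤ) (i : κ) :
    (C.submatrix (Subtype.val : {j : κ // j ≠ i} → κ) id) *
      (C.submatrix (Subtype.val : {j : κ // j ≠ i} → κ) id).transpose =
      del (C * C.transpose) i := by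
  ext a b
  simp [del, Matrix.mul_apply]

/-- The cards of the clique vertices determine the characteristic polynomial. -/
theorem blk_core (C D : Matrix κ τ ℤ) (hk : 3 ≤ Fintype.card κ)
    (h : ∀ i : κ, (del (blk C) (Sum.inl i)).charpoly = (del (blk D) (Sum.inl i)).charpoly) :
    (blk C).charpoly = (blk D).charpoly := by
  have h1 : ∀ i, (del (C * C.transpose) i).charpoly = (del (D * D.transpose) i).charpoly ∧
      W (del (C * C.transpose) i) = W (del (D * D.transpose) i) := by
    intro i
    apply sep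
    have hC := charpoly_blk (C.submatrix (Subtype.val : {j : κ // j ≠ i} → κ) id)
    have hD := charpoly_blk (D.submatrix (Subtype.val : {j : κ // j ≠ i} → κ) id)
    rw [← charpoly_del_blk, del_mul_transpose] at hC hD
    rw [← h i, hC] at hD
    exact mul_left_cancel₀ (pow_ne_zero _ X_ne_zero) hD
  obtain ⟨h2, h3⟩ := core (C * C.transpose) (D * D.transpose)
    (by rw [Matrix.IsSymm, transpose_mul, transpose_transpose])
    (by rw [Matrix.IsSymm, transpose_mul, transpose_transpose]) hk
    (fun i => (h1 i).1) (fun i => (h1 i).2)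
  have hC := charpoly_blk C
  have hD := charpoly_blk D
  rw [h2, h3, ← hD] at hC
  exact mul_left_cancel₀ (pow_ne_zero _ X_ne_zero) hC

end Pool.Agent.MP2696
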