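import Pool.Agent.Lib.MP_2696ff_co.P4

/-!
# MP_2696ff_co: a cograph has no eigenvalue between minus one and zero
-/

set_option autoImplicit false

namespace Pool.Agent.MP2696

/-- The matrix `A + diag d` of a cograph is invertible if all `0 < d v < 1`. -/
theorem nonvan (n : ℕ) : ∀ (V : Type) [Fintype V] [DecidableEq V] (G : SimpleGraph V)
    [DecidableRel G.Adj], P4Free G →
    Fintype.card V = n → ∀ d : V → ℝ, (∀ v, 0 < d v ∧ d v < 1) → ∀ x : V → ℝ,
    (∀ v, ∑ w, (if G.Adj v w then x w else 0) + d v * x v = 0) → ∀ v, x v = 0 := by
  induction n with
  | zero =>
    intro V _ _ G _ _ hc d _ x _ v
    have : Nonempty V := ⟨v⟩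
    exact absurd hc Fintype.card_ne_zero
  | succ n ih =>
    intro V _ _ G _ hG hc d hd x hx
    by_cases hn : n = 0
    · subst hn
      intro v
      have huniv : (Finset.univ : Finset V) = {v} := by
        refine (Finset.eq_of_subset_of_card_le (Finset.subset_univ _) ?_).symm
        rw [Finset.card_univ, hc, Finset.card_singleton]
      have h1 := hx v
      rw [huniv, Finset.sum_singleton, if_neg (G.irrefl (v := v)), zero_add] at h1
      rcases mul_eq_zero.1 h1 with h2 | h2
      · exact absurd h2 (hd v).1.ne'
      · exact h2
    · obtain ⟨a, b, hab, htw⟩ := exists_twin (n + 1) V G hG hc (by omega)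
      set ε : ℝ := if G.Adj a b then 1 else 0 with hε
      set d2 : ℝ := if G.Adj a b then (1 - d a * d b) / (2 - d a - d b) else
        d a * d b / (d a + d b) with hd2
      obtain ⟨ha0, ha1⟩ := hd a
      obtain ⟨hb0, hb1⟩ := hd b
      have hs1 : 0 < d a + d b := by linarith
      have hs2 : 0 < 2 - d a - d b := by linarith
      have hd2' : 0 < d2 ∧ d2 < 1 := by
        rw [hd2]
        split_ifs
        · constructor
          · apply div_pos _ hs2
            nlinarith
          · rw [div_lt_one hs2]
            nlinarith [mul_pos (sub_pos.2 ha1) (sub_pos.2 hb1)]
        · constructor
          · positivity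
          · rw [div_lt_one hs1]
            nlinarith [mul_pos (sub_pos.2 ha1) hb0]
      -- the difference of the rows
      have hdiff : (d a - ε) * x a = (d b - ε) * x b := by
        have h1 : ∑ w, ((if G.Adj a w then x w else 0) - (if G.Adj b w then x w else 0)) =
            ε * x b - ε * x a := by
          have h2 : ∀ w, ((if G.Adj a w then x w else 0) - (if G.Adj b w then x w else 0)) =
              (if w = b then ε * x b else 0) - (if w = a then ε * x a else 0) := by
            intro w
            by_cases hwa : w = a
            · subst hwa
              by_cases h : G.Adj w b
              · simp [hε, h, h.symm, hab]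
              · have h' : ¬ G.Adj b w := fun h' => h h'.symm
                simp [hε, h, h', hab]
            · by_cases hwb : w = b
              · subst hwb
                by_cases h : G.Adj a w
                · simp [hε, h, hwa]
                · simp [hε, h, hwa]
              · rw [if_neg hwa, if_neg hwb]
                by_cases h : G.Adj a w
                · rw [if_pos h, if_pos ((htw w hwa hwb).1 h)]; ring
                · rw [if_neg h, if_neg (fun h' => h ((htw w hwa hwb).2 h'))]
          rw [Finset.sum_congr rfl fun w _ => h2 w, Finset.sum_sub_distrib]
          simp
        rw [Finset.sum_sub_distrib] at h1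
        have h2 := hx a
        have h3 := hx b
        linear_combination h2 - h3 - h1
      -- the reduced graph
      let y : {w : V // w ≠ a} → ℝ := fun w => if (w : V) = b then x a + x b else x w
      let d' : {w : V // w ≠ a} → ℝ := fun w => if (w : V) = b then d2 else d w
      have hcard : Fintype.card {w : V // w ≠ a} = n := by
        rw [Fintype.card_subtype_compl, Fintype.card_subtype_eq, hc]
        omega
      have hy : ∀ w, y w = 0 := by
        refine ih {w : V // w ≠ a} (G.comap Subtype.val) (hG.comap _) hcard d' ?_ y ?_
        · intro w
          simp only [d']
          split_ifs
          · exact hd2'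
          · exact hd w
        · rintro ⟨w, hw⟩
          have h1 : ∑ u : {w : V // w ≠ a},
              (if (G.comap Subtype.val).Adj (⟨w, hw⟩ : {w : V // w ≠ a}) u then y u else 0) =
              ∑ u, (if G.Adj w u then x u else 0) + (if G.Adj w b then x a else 0) -
                (if G.Adj w a then x a else 0) := by
            have h2 : ∀ f : V → ℝ, ∑ u : {w : V // w ≠ a}, f u = ∑ u, f u - f a := by
              intro f
              rw [Fintype.sum_eq_add_sum_subtype_ne f a]
              ring
            have h3 : ∑ u : {w : V // w ≠ a},
              (if (G.comap Subtype.val).Adj (⟨w, hw⟩ : {w : V // w ≠ a}) u then y u else 0) =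
              ∑ u : {w : V // w ≠ a},
                (fun u => if G.Adj w u then (if u = b then x a + x b else x u) else 0) (u : V) := by
              refine Finset.sum_congr rfl fun u _ => ?_
              rfl
            rw [h3, h2 (fun u => if G.Adj w u then (if u = b then x a + x b else x u) else 0)]
            have h4 : ∀ u, (if G.Adj w u then (if u = b then x a + x b else x u) else 0) =
                (if G.Adj w u then x u else 0) + (if u = b then (if G.Adj w b then x a else 0) else 0) := by
              intro u
              by_cases hu : u = b
              · subst hu
                split_ifs <;> ring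
              · rw [if_neg hu, if_neg hu, add_zero]
            simp only [h4, Finset.sum_add_distrib]
            simp [hab]
          rw [h1]
          by_cases hwb : w = b
          · subst hwb
            have h5 := hx w
            simp only [y, d', if_true, if_neg (G.irrefl (v := w))]
            by_cases h : G.Adj a w
            · rw [if_pos h] at hε hd2
              rw [hε] at hdiff
              rw [if_pos h.symm, hd2]
              have hs3 : (2 - d a - d w) ≠ 0 := hs2.ne'
              field_simp
              linear_combination (2 - d a - d w) * h5 + (1 - d w) * hdiff
            · rw [if_neg h] at hε hd2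
              rw [hε] at hdiff
              rw [if_neg (fun h' => h h'.symm), hd2]
              have hs3 : (d a + d w) ≠ 0 := hs1.ne'
              field_simp
              linear_combination (d a + d w) * h5 + (d w) * hdiff
          · have h6 : G.Adj w a ↔ G.Adj w b := by
              rw [G.adj_comm, G.adj_comm w b]
              exact htw w hw hwb
            have h5 := hx w
            simp only [y, d', if_neg hwb]
            by_cases h : G.Adj w a
            · rw [if_pos h, if_pos (h6.1 h)]
              linear_combination h5
            · rw [if_neg h, if_neg (fun h' => h (h6.2 h'))]
              linear_combination h5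
      have hsum : x a + x b = 0 := by
        have := hy ⟨b, hab.symm⟩
        simpa [y] using this
      have hxa : x a = 0 := by
        have h1 : (d a + d b - 2 * ε) * x a = 0 := by
          linear_combination hdiff + (d b - ε) * hsum
        rcases mul_eq_zero.1 h1 with h2 | h2
        · exfalso
          rw [hε] at h2
          split_ifs at h2 <;> linarith
        · exact h2
      intro v
      by_cases hva : v = a
      · rw [hva]; exact hxa
      · by_cases hvb : v = b
        · rw [hvb]; linarith
        · have := hy ⟨v, hva⟩
          simpa [y, hvb] using this

end Pool.Agent.MP2696
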