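import Pool.Agent.Lib.MP_2696ff_co.Split
import Pool.Agent.Lib.MP_2696ff_co.Nonvan

/-!
# MP_2696ff_co: cographs are reconstructible from the polynomial deck
-/

set_option autoImplicit false

namespace Pool.Agent.MP2696

open Matrix Polynomial

section

variable {V : Type*} [Fintype V] [DecidableEq V]

/-- The identity for the square of the adjugate. -/
theorem adj_sq (A : Matrix V V ℤ) (hA : Adj A) (v : V) :
    ∑ w, (adjugate (charmatrix A) v w) ^ 2 =
      derivative A.charpoly * (del A v).charpoly - A.charpoly * derivative (del A v).charpoly := by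
  set N := charmatrix A with hN
  have hNs : N.IsSymm := by
    ext a b : 1
    rw [Matrix.transpose_apply, hN, charmatrix_apply, charmatrix_apply, hA.symm a b]
    by_cases h : a = b
    · subst h; rfl
    · rw [Matrix.diagonal_apply_ne _ h, Matrix.diagonal_apply_ne _ (Ne.symm h)]
  have has : (adjugate N).IsSymm := by
    rw [Matrix.IsSymm, adjugate_transpose, hNs.eq]
  have hP : N.det = A.charpoly := rfl
  -- entrywise derivatives
  have h1 : ∀ i k, adjugate N i k + ∑ j, N i j * derivative (adjugate N j k) =
      (derivative A.charpoly) * (1 : Matrix V V ℤ[X]) i k := by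
    intro i k
    have h2 : (N * adjugate N) i k = (N.det • (1 : Matrix V V ℤ[X])) i k := by rw [mul_adjugate]
    rw [Matrix.mul_apply, Matrix.smul_apply, smul_eq_mul, hP] at h2
    have h3 := congrArg derivative h2
    rw [derivative_sum, derivative_mul] at h3
    have h4 : derivative ((1 : Matrix V V ℤ[X]) i k) = 0 := by
      rw [Matrix.one_apply]
      split_ifs <;> simp
    rw [h4, mul_zero, add_zero] at h3
    rw [← h3]
    have h5 : ∀ j, derivative (N i j * adjugate N j k) =
        (if i = j then adjugate N j k else 0) + N i j * derivative (adjugate N j k) := by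
      intro j
      rw [derivative_mul]
      congr 1
      rw [hN, charmatrix_apply, derivative_sub, derivative_C, sub_zero, Matrix.diagonal_apply]
      split_ifs <;> simp
    simp only [h5, Finset.sum_add_distrib]
    simp
  have h2 : ∑ i, adjugate N v i * (adjugate N i v + ∑ j, N i j * derivative (adjugate N j v)) =
      ∑ i, adjugate N v i * ((derivative A.charpoly) * (1 : Matrix V V ℤ[X]) i v) :=
    Finset.sum_congr rfl fun i _ => by rw [h1]
  have h3 : ∑ i, adjugate N v i * ((derivative A.charpoly) * (1 : Matrix V V ℤ[X]) i v) =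
      derivative A.charpoly * adjugate N v v := by
    rw [Finset.sum_eq_single v]
    · rw [Matrix.one_apply_eq]; ring
    · intro b _ hb
      rw [Matrix.one_apply_ne hb]; ring
    · intro h
      exact absurd (Finset.mem_univ v) h
  have h4 : ∑ i, adjugate N v i * ∑ j, N i j * derivative (adjugate N j v) =
      A.charpoly * derivative (adjugate N v v) := by
    simp_rw [Finset.mul_sum]
    rw [Finset.sum_comm]
    have h5 : ∀ j, ∑ i, adjugate N v i * (N i j * derivative (adjugate N j v)) =
        (A.charpoly * (1 : Matrix V V ℤ[X]) v j) * derivative (adjugate N j v) := by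
      intro j
      have h6 : (adjugate N * N) v j = (N.det • (1 : Matrix V V ℤ[X])) v j := by rw [adjugate_mul]
      rw [Matrix.mul_apply, Matrix.smul_apply, smul_eq_mul, hP] at h6
      rw [← h6, Finset.sum_mul]
      exact Finset.sum_congr rfl fun i _ => by ring
    simp_rw [h5]
    rw [Finset.sum_eq_single v]
    · rw [Matrix.one_apply_eq]; ring
    · intro b _ hb
      rw [Matrix.one_apply_ne hb.symm]; ring
    · intro h
      exact absurd (Finset.mem_univ v) h
  simp_rw [mul_add] at h2
  rw [Finset.sum_add_distrib, h3, h4] at h2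
  have h7 : (del A v).charpoly = adjugate N v v := charpoly_del A v
  rw [h7]
  have h8 : ∑ w, adjugate N v w ^ 2 = ∑ w, adjugate N v w * adjugate N w v :=
    Finset.sum_congr rfl fun w _ => by rw [has.apply v w]; ring
  rw [h8]
  linear_combination h2

theorem adj_sq_nonneg (A : Matrix V V ℤ) (hA : Adj A) (v : V) (x : ℤ)
    (hf : (del A v).charpoly.eval x = 0) :
    A.charpoly.eval x * (derivative (del A v).charpoly).eval x ≤ 0 ∧
      ((derivative (del A v).charpoly).eval x = 0 → A.charpoly.eval x = 0) := by
  have h := congrArg (eval x) (adj_sq A hA v)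
  rw [eval_finsetSum, eval_sub, eval_mul, eval_mul, hf, mul_zero, zero_sub] at h
  simp only [eval_pow] at h
  have hnn : 0 ≤ ∑ w, (eval x (adjugate (charmatrix A) v w)) ^ 2 :=
    Finset.sum_nonneg fun w _ => sq_nonneg _
  refine ⟨by linarith, fun h0 => ?_⟩
  rw [h0, mul_zero, neg_zero] at h
  have hz : ∀ w, eval x (adjugate (charmatrix A) v w) = 0 := by
    intro w
    have := (Finset.sum_eq_zero_iff_of_nonneg (fun w _ => sq_nonneg _)).1 h w (Finset.mem_univ w)
    exact pow_eq_zero_iff (two_ne_zero) |>.1 this
  have h6 : (adjugate (charmatrix A) * charmatrix A) v v =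
      ((charmatrix A).det • (1 : Matrix V V ℤ[X])) v v := by rw [adjugate_mul]
  rw [Matrix.mul_apply, Matrix.smul_apply, smul_eq_mul, Matrix.one_apply_eq, mul_one] at h6
  have h7 := congrArg (eval x) h6
  rw [eval_finsetSum] at h7
  simp only [eval_mul, hz, zero_mul, Finset.sum_const_zero] at h7
  exact h7.symm

/-- Twins in terms of the matrix. -/
def Tw (A : Matrix V V ℤ) (a b : V) : Prop := a ≠ b ∧ ∀ w, w ≠ a → w ≠ b → A a w = A b w

theorem tw_root (A : Matrix V V ℤ) (hA : Adj A) (a b : V) (h : Tw A a b) :
    A.charpoly.eval (-A a b) = 0 := by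
  rw [Matrix.eval_charpoly]
  refine Matrix.det_zero_of_row_eq h.1 ?_
  funext w
  rw [Matrix.sub_apply, Matrix.sub_apply, Matrix.scalar_apply, Matrix.diagonal_apply,
    Matrix.diagonal_apply]
  by_cases hwa : w = a
  · subst hwa
    rw [if_pos rfl, if_neg h.1.symm, hA.diag, hA.symm b w]
    ring
  · by_cases hwb : w = b
    · subst hwb
      rw [if_pos rfl, if_neg h.1, hA.diag]
      ring
    · rw [if_neg (Ne.symm hwa), if_neg (Ne.symm hwb), h.2 w hwa hwb]

theorem Tw.del {A : Matrix V V ℤ} {a b : V} (h : Tw A a b) (i : V) (ha : a ≠ i) (hb : b ≠ i) :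
    Tw (del A i) ⟨a, ha⟩ ⟨b, hb⟩ :=
  ⟨fun h' => h.1 (congrArg Subtype.val h'), fun w hwa hwb =>
    h.2 w (fun h' => hwa (Subtype.ext h')) (fun h' => hwb (Subtype.ext h'))⟩

theorem regular_root (A : Matrix V V ℤ) [Nonempty V] (k : ℤ) (h : ∀ v, ∑ w, A v w = k) :
    A.charpoly.eval k = 0 := by
  rw [Matrix.eval_charpoly]
  apply Matrix.exists_mulVec_eq_zero_iff.1
  refine ⟨fun _ => 1, fun h0 => ?_, ?_⟩
  · obtain ⟨v⟩ := ‹Nonempty V›
    have := congrFun h0 v
    simp at this
  · funext v
    rw [Matrix.sub_mulVec]
    simp [Matrix.mulVec, dotProduct, Matrix.scalar_apply, Matrix.diagonal_apply, h v]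

end

/-- The graph of a zero-one matrix. -/
def gr {V : Type} (A : Matrix V V ℤ) (hs : ∀ i j, A i j = A j i) (hd : ∀ i, A i i = 0) :
    SimpleGraph V where
  Adj x y := A x y = 1
  symm := ⟨fun x y h => by rw [hs y x]; exact h⟩
  loopless := ⟨fun x h => by rw [hd x] at h; norm_num at h⟩

theorem tw_of_twin {V : Type} {A : Matrix V V ℤ} (hA : Adj A) {a b : V}
    (h : Twin (gr A hA.symm hA.diag) a b) : Tw A a b := by
  refine ⟨h.1, fun w hwa hwb => ?_⟩
  have h1 : A a w = 1 ↔ A b w = 1 := h.2 w hwa hwb
  rcases hA.zo a w with h2 | h2 <;> rcases hA.zo b w with h3 | h3 <;> rw [h2, h3] at h1 ⊢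
  · norm_num at h1
  · norm_num at h1

/-- The structure of the cographs which are not determined by their degrees. -/
theorem peel (n : ℕ) : ∀ (V : Type) [Fintype V] [DecidableEq V] (A B : Matrix V V ℤ)
    (hA : Adj A) (_ : Adj B), P4Free (gr A hA.symm hA.diag) → Fintype.card V = n →
    (∀ v, ∑ w, A v w = ∑ w, B v w) →
    A = B ∨ ∃ a b c d : V, a ≠ c ∧ a ≠ d ∧ b ≠ c ∧ b ≠ d ∧ Tw A a b ∧ Tw A c d ∧
      ((∃ i, i ≠ a ∧ i ≠ b ∧ i ≠ c ∧ i ≠ d) ∨ ∃ k, ∀ v, ∑ w, A v w = k) := by
  induction n with
  | zero =>
    intro V _ _ A B _ _ _ hc _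
    left
    ext i
    have : Nonempty V := ⟨i⟩
    exact absurd hc Fintype.card_ne_zero
  | succ n ih =>
    intro V _ _ A B hA hB hP hc hrow
    by_cases hv : ∃ v t, ∀ w, w ≠ v → A v w = t
    · obtain ⟨v, t, ht⟩ := hv
      -- the row of `v` is the same in `B`
      have hrowv : ∀ w, A v w = B v w := by
        by_cases h0 : ∀ w, w ≠ v → A v w = 0
        · have h1 : ∑ w, B v w = 0 := by
            rw [← hrow v]
            refine Finset.sum_eq_zero fun w _ => ?_
            by_cases hw : w = v
            · rw [hw]; exact hA.diag v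
            · exact h0 w hw
          have h2 : ∀ w, 0 ≤ B v w := fun w => by
            rcases hB.zo v w with h | h <;> rw [h]
            norm_num
          intro w
          rw [(Finset.sum_eq_zero_iff_of_nonneg (fun w _ => h2 w)).1 h1 w (Finset.mem_univ w)]
          by_cases hw : w = v
          · rw [hw]; exact hA.diag v
          · exact h0 w hw
        · push Not at h0
          obtain ⟨w0, hw0, hw0'⟩ := h0
          have ht1 : t = 1 := by
            have := ht w0 hw0
            rcases hA.zo v w0 with h | h
            · exact absurd h hw0'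
            · rw [← this, h]
          have h2 : ∀ w, 0 ≤ A v w - B v w := by
            intro w
            by_cases hw : w = v
            · rw [hw, hA.diag, hB.diag]; norm_num
            · rw [ht w hw, ht1]
              rcases hB.zo v w with h | h <;> rw [h] <;> norm_num
          have h1 : ∑ w, (A v w - B v w) = 0 := by
            rw [Finset.sum_sub_distrib, hrow v, sub_self]
          intro w
          have := (Finset.sum_eq_zero_iff_of_nonneg (fun w _ => h2 w)).1 h1 w (Finset.mem_univ w)
          linarith
      have hcv : Fintype.card {w : V // w ≠ v} = n := by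
        rw [Fintype.card_subtype_compl, Fintype.card_subtype_eq, hc]
        omega
      have hsum : ∀ (M : Matrix V V ℤ) (i : {w : V // w ≠ v}),
          ∑ j, del M v i j = ∑ j, M i j - M i v := by
        intro M i
        have h1 : ∀ f : V → ℤ, ∑ i : {w : V // w ≠ v}, f i = ∑ i, f i - f v := by
          intro f
          rw [Fintype.sum_eq_add_sum_subtype_ne f v]
          ring
        exact h1 (fun j => M i j)
      rcases ih {w : V // w ≠ v} (del A v) (del B v) (hA.del v) (hB.del v) (hP.comap Subtype.val)
        hcv (fun i => by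
          rw [hsum, hsum, hrow, hA.symm i v, hB.symm i v, hrowv]) with h | h
      · left
        ext i j
        by_cases hi : i = v
        · rw [hi]; exact hrowv j
        · by_cases hj : j = v
          · rw [hj, hA.symm, hB.symm]; exact hrowv i
          · exact congrFun (congrFun h ⟨i, hi⟩) ⟨j, hj⟩
      · right
        obtain ⟨a, b, c, d, h1, h2, h3, h4, h5, h6, -⟩ := h
        have hlift : ∀ a b : {w : V // w ≠ v}, Tw (del A v) a b → Tw A a b := by
          intro a b hab
          refine ⟨fun h => hab.1 (Subtype.ext h), fun w hwa hwb => ?_⟩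
          by_cases hwv : w = v
          · rw [hwv, hA.symm a v, hA.symm b v, ht a a.2, ht b b.2]
          · exact hab.2 ⟨w, hwv⟩ (fun h => hwa (congrArg Subtype.val h))
              (fun h => hwb (congrArg Subtype.val h))
        exact ⟨a, b, c, d, fun h => h1 (Subtype.ext h), fun h => h2 (Subtype.ext h),
          fun h => h3 (Subtype.ext h), fun h => h4 (Subtype.ext h), hlift a b h5, hlift c d h6,
          Or.inl ⟨v, fun h => a.2 h.symm, fun h => b.2 h.symm, fun h => c.2 h.symm,
            fun h => d.2 h.symm⟩⟩
    · right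
      push Not at hv
      have hiso : ∀ v, ∃ w, (gr A hA.symm hA.diag).Adj v w := by
        intro v
        obtain ⟨w, hw, hw'⟩ := hv v 0
        rcases hA.zo v w with h | h
        · exact absurd h hw'
        · exact ⟨w, h⟩
      have hdom : ∀ v, ∃ w, w ≠ v ∧ ¬ (gr A hA.symm hA.diag).Adj v w := by
        intro v
        obtain ⟨w, hw, hw'⟩ := hv v 1
        exact ⟨w, hw, hw'⟩
      have hne : Nonempty V := Fintype.card_pos_iff.1 (by omega)
      have hc2 : 2 ≤ Fintype.card V := by
        obtain ⟨v⟩ := hne
        obtain ⟨w, hw⟩ := hdom v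
        have : Nontrivial V := ⟨⟨w, v, hw.1⟩⟩
        exact Fintype.one_lt_card_iff_nontrivial.2 this
      obtain ⟨T, hT, a, b, c, d, ha, hb, hc', hd, hab, hcd⟩ :=
        two_twins V (gr A hA.symm hA.diag) hP hc2 hiso hdom
      have hac : a ≠ c := fun h => hc' (h ▸ ha)
      have had : a ≠ d := fun h => hd (h ▸ ha)
      have hbc : b ≠ c := fun h => hc' (h ▸ hb)
      have hbd : b ≠ d := fun h => hd (h ▸ hb)
      refine ⟨a, b, c, d, hac, had, hbc, hbd, tw_of_twin hA hab, tw_of_twin hA hcd, ?_⟩
      by_cases hi : ∃ i, i ≠ a ∧ i ≠ b ∧ i ≠ c ∧ i ≠ d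
      · exact Or.inl hi
      · right
        push Not at hi
        have hcase : ∀ w, w = a ∨ w = b ∨ w = c ∨ w = d := by
          intro w
          by_cases h1 : w = a
          · exact Or.inl h1
          by_cases h2 : w = b
          · exact Or.inr (Or.inl h2)
          by_cases h3 : w = c
          · exact Or.inr (Or.inr (Or.inl h3))
          exact Or.inr (Or.inr (Or.inr (hi w h1 h2 h3)))
        have huniv : (Finset.univ : Finset V) = {a, b, c, d} := by
          ext w
          simp [hcase w]
        have hsum : ∀ f : V → ℤ, ∑ w, f w = f a + f b + f c + f d := by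
          intro f
          rw [huniv, Finset.sum_insert (by simp [hab.1, hac, had]),
            Finset.sum_insert (by simp [hbc, hbd]), Finset.sum_pair hcd.1]
          ring
        rcases hT with hT | hT
        · have hz : ∀ x ∈ T, ∀ y, y ∉ T → A x y = 0 := by
            intro x hx y hy
            rcases hA.zo x y with h | h
            · exact h
            · exact absurd h (hT x hx y hy)
          have hab1 : A a b = 1 := by
            obtain ⟨w, hw⟩ := hiso a
            have hw' : A a w = 1 := hw
            rcases hcase w with rfl | rfl | rfl | rfl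
            · rw [hA.diag] at hw'; norm_num at hw'
            · exact hw'
            · rw [hz a ha w hc'] at hw'; norm_num at hw'
            · rw [hz a ha w hd] at hw'; norm_num at hw'
          have hcd1 : A c d = 1 := by
            obtain ⟨w, hw⟩ := hiso c
            have hw' : A c w = 1 := hw
            rcases hcase w with rfl | rfl | rfl | rfl
            · rw [hA.symm, hz w ha c hc'] at hw'; norm_num at hw'
            · rw [hA.symm, hz w hb c hc'] at hw'; norm_num at hw'
            · rw [hA.diag] at hw'; norm_num at hw'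
            · exact hw'
          refine ⟨1, fun v => ?_⟩
          rw [hsum]
          rcases hcase v with rfl | rfl | rfl | rfl
          · rw [hA.diag, hab1, hz v ha c hc', hz v ha d hd]; norm_num
          · rw [hA.diag, hA.symm v a, hab1, hz v hb c hc', hz v hb d hd]; norm_num
          · rw [hA.diag, hA.symm v a, hA.symm v b, hcd1, hz a ha v hc', hz b hb v hc']; norm_num
          · rw [hA.diag, hA.symm v a, hA.symm v b, hA.symm v c, hcd1, hz a ha v hd,
              hz b hb v hd]; norm_num
        · have hz : ∀ x ∈ T, ∀ y, y ∉ T → A x y = 1 := hT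
          have hab1 : A a b = 0 := by
            obtain ⟨w, hwa, hw⟩ := hdom a
            have hw' : A a w = 0 := by
              rcases hA.zo a w with h | h
              · exact h
              · exact absurd h hw
            rcases hcase w with rfl | rfl | rfl | rfl
            · exact absurd rfl hwa
            · exact hw'
            · rw [hz a ha w hc'] at hw'; norm_num at hw'
            · rw [hz a ha w hd] at hw'; norm_num at hw'
          have hcd1 : A c d = 0 := by
            obtain ⟨w, hwa, hw⟩ := hdom c
            have hw' : A c w = 0 := by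
              rcases hA.zo c w with h | h
              · exact h
              · exact absurd h hw
            rcases hcase w with rfl | rfl | rfl | rfl
            · rw [hA.symm, hz w ha c hc'] at hw'; norm_num at hw'
            · rw [hA.symm, hz w hb c hc'] at hw'; norm_num at hw'
            · exact absurd rfl hwa
            · exact hw'
          refine ⟨2, fun v => ?_⟩
          rw [hsum]
          rcases hcase v with rfl | rfl | rfl | rfl
          · rw [hA.diag, hab1, hz v ha c hc', hz v ha d hd]; norm_num
          · rw [hA.diag, hA.symm v a, hab1, hz v hb c hc', hz v hb d hd]; norm_num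
          · rw [hA.diag, hA.symm v a, hA.symm v b, hcd1, hz a ha v hc', hz b hb v hc']; norm_num
          · rw [hA.diag, hA.symm v a, hA.symm v b, hA.symm v c, hcd1, hz a ha v hd,
              hz b hb v hd]; norm_num

/-- A real root of an integer polynomial between two roots at which it increases. -/
theorem root_between (f : ℤ[X]) (γ : ℤ) (h0 : f.eval 0 = 0) (h1 : f.eval (-1) = 0)
    (h2 : 0 < γ * (derivative f).eval 0) (h3 : 0 < γ * (derivative f).eval (-1)) :
    ∃ x : ℝ, -1 < x ∧ x < 0 ∧ (f.map (Int.castRingHom ℝ)).eval x = 0 := by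
  obtain ⟨f1, rfl⟩ : X ∣ f := by
    rw [X_dvd_iff, coeff_zero_eq_eval_zero, h0]
  have h4 : f1.eval (-1) = 0 := by
    rw [eval_mul, eval_X] at h1
    linarith
  obtain ⟨g, rfl⟩ : X - C (-1) ∣ f1 := dvd_iff_isRoot.2 h4
  have e0 : (derivative (X * ((X - C (-1)) * g))).eval 0 = g.eval 0 := by
    simp [derivative_mul]
  have e1 : (derivative (X * ((X - C (-1)) * g))).eval (-1) = - g.eval (-1) := by
    simp [derivative_mul]
  rw [e0] at h2
  rw [e1] at h3
  set G := g.map (Int.castRingHom ℝ) with hG
  have hG0 : 0 < (γ : ℝ) * G.eval 0 := by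
    have : G.eval 0 = ((g.eval 0 : ℤ) : ℝ) := by
      rw [hG, ← Int.cast_zero, eval_intCast_map]
      simp
    rw [this]
    exact_mod_cast h2
  have hG1 : (γ : ℝ) * G.eval (-1) < 0 := by
    have : G.eval (-1) = ((g.eval (-1) : ℤ) : ℝ) := by
      rw [hG, show (-1 : ℝ) = ((-1 : ℤ) : ℝ) by norm_num, eval_intCast_map]
      simp
    rw [this]
    have : (γ * g.eval (-1) : ℤ) < 0 := by linarith
    exact_mod_cast this
  have hcont : ContinuousOn (fun x : ℝ => (γ : ℝ) * G.eval x) (Set.Icc (-1) 0) :=
    (continuous_const.mul G.continuous).continuousOn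
  obtain ⟨x, hx, hx0⟩ := intermediate_value_Icc (by norm_num : (-1 : ℝ) ≤ 0) hcont
    (show (0 : ℝ) ∈ Set.Icc ((γ : ℝ) * G.eval (-1)) ((γ : ℝ) * G.eval 0) from ⟨hG1.le, hG0.le⟩)
  have hγ : (γ : ℝ) ≠ 0 := by
    intro h
    rw [h, zero_mul] at hG0
    exact lt_irrefl _ hG0
  have hx0' : (γ : ℝ) * G.eval x = 0 := hx0
  have hGx : G.eval x = 0 := by
    rcases mul_eq_zero.1 hx0' with h | h
    · exact absurd h hγ
    · exact h
  refine ⟨x, lt_of_le_of_ne hx.1 ?_, lt_of_le_of_ne hx.2 ?_, ?_⟩
  · rintro rfl
    rw [hGx, mul_zero] at hG1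
    exact lt_irrefl _ hG1
  · rintro rfl
    rw [hGx, mul_zero] at hG0
    exact lt_irrefl _ hG0
  · rw [Polynomial.map_mul, Polynomial.map_mul, eval_mul, eval_mul, ← hG, hGx, mul_zero, mul_zero]

/-- The characteristic polynomial of a cograph has no root between minus one and zero. -/
theorem no_root {V : Type} [Fintype V] [DecidableEq V] (A : Matrix V V ℤ) (hA : Adj A)
    (hP : P4Free (gr A hA.symm hA.diag)) (x : ℝ) (h1 : -1 < x) (h2 : x < 0) :
    (A.charpoly.map (Int.castRingHom ℝ)).eval x ≠ 0 := by
  intro h
  rw [← Matrix.charpoly_map, Matrix.eval_charpoly] at h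
  obtain ⟨y, hy, hy0⟩ := Matrix.exists_mulVec_eq_zero_iff.2 h
  have : DecidableRel (gr A hA.symm hA.diag).Adj := fun a b =>
    inferInstanceAs (Decidable (A a b = 1))
  apply hy
  funext v
  refine nonvan _ V (gr A hA.symm hA.diag) hP rfl (fun _ => -x)
    (fun _ => ⟨by linarith, by linarith⟩) y (fun v => ?_) v
  have h3 := congrFun hy0 v
  rw [Matrix.sub_mulVec, Pi.sub_apply, Pi.zero_apply] at h3
  have h4 : (Matrix.scalar V x).mulVec y v = x * y v := by
    simp [Matrix.mulVec, dotProduct, Matrix.diagonal_apply]
  have h5 : (A.map (Int.castRingHom ℝ)).mulVec y v =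
      ∑ w, (if (gr A hA.symm hA.diag).Adj v w then y w else 0) := by
    rw [Matrix.mulVec, dotProduct]
    refine Finset.sum_congr rfl fun w _ => ?_
    rcases hA.zo v w with h | h
    · have hn : ¬ (gr A hA.symm hA.diag).Adj v w := fun h' => by
        have h'' : A v w = 1 := h'
        rw [h] at h''
        norm_num at h''
      rw [if_neg hn]
      simp [h]
    · have hn : (gr A hA.symm hA.diag).Adj v w := h
      rw [if_pos hn]
      simp [h]
  rw [h4, h5] at h3
  linarith

/-- Cographs with the same labelled deck. -/
theorem cog_core {V : Type} [Fintype V] [DecidableEq V] (A B : Matrix V V ℤ) (hA : Adj A)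
    (hB : Adj B) (hP : P4Free (gr A hA.symm hA.diag)) (hn : 3 ≤ Fintype.card V)
    (h : ∀ v, (del A v).charpoly = (del B v).charpoly) : A.charpoly = B.charpoly := by
  have hne : Nonempty V := Fintype.card_pos_iff.1 (by omega)
  have hrow := row_sums A B hA hB hn h
  obtain ⟨γ, hγ⟩ : ∃ γ : ℤ, A.charpoly - B.charpoly = C γ := by
    have : derivative (A.charpoly - B.charpoly) = 0 := by
      rw [derivative_sub, derivative_charpoly, derivative_charpoly, sub_eq_zero]
      exact Finset.sum_congr rfl fun i _ => h i
    exact ⟨_, eq_C_of_derivative_eq_zero this⟩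
  have hdone : ∀ x : ℤ, A.charpoly.eval x = 0 → B.charpoly.eval x = 0 →
      A.charpoly = B.charpoly := by
    intro x hx hx'
    have h1 := congrArg (eval x) hγ
    rw [eval_sub, hx, hx', sub_zero, eval_C] at h1
    rw [← h1, C_0, sub_eq_zero] at hγ
    exact hγ
  rcases peel _ V A B hA hB hP rfl hrow with hAB | ⟨a, b, c, d, hac, had, hbc, hbd, hab, hcd, hi⟩
  · rw [hAB]
  rcases hi with ⟨i, hia, hib, hic, hid⟩ | ⟨k, hk⟩
  swap
  · exact hdone k (regular_root A k hk) (regular_root B k (fun v => by rw [← hrow, hk]))
  -- the twins in the card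
  have t1 := hab.del i hia.symm hib.symm
  have t2 := hcd.del i hic.symm hid.symm
  have r1 : (del A i).charpoly.eval (-A a b) = 0 := tw_root (del A i) (hA.del i) _ _ t1
  have r2 : (del A i).charpoly.eval (-A c d) = 0 := tw_root (del A i) (hA.del i) _ _ t2
  by_cases hε : A a b = A c d
  · -- a double eigenvalue of the card
    have hder : (derivative (del A i).charpoly).eval (-A a b) = 0 := by
      rw [derivative_charpoly, eval_finsetSum]
      refine Finset.sum_eq_zero fun j _ => ?_
      by_cases hj : (j : V) = a ∨ (j : V) = b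
      · have hjc : (⟨c, hic.symm⟩ : {w : V // w ≠ i}) ≠ j := by
          intro h'
          have h'' : c = (j : V) := congrArg Subtype.val h'
          rcases hj with hj | hj
          · exact hac (by rw [h'', hj])
          · exact hbc (by rw [h'', hj])
        have hjd : (⟨d, hid.symm⟩ : {w : V // w ≠ i}) ≠ j := by
          intro h'
          have h'' : d = (j : V) := congrArg Subtype.val h'
          rcases hj with hj | hj
          · exact had (by rw [h'', hj])
          · exact hbd (by rw [h'', hj])
        rw [hε]
        exact tw_root (del (del A i) j) ((hA.del i).del j) _ _ (t2.del j hjc hjd)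
      · push Not at hj
        have hja : (⟨a, hia.symm⟩ : {w : V // w ≠ i}) ≠ j := fun h' =>
          hj.1 (congrArg Subtype.val h').symm
        have hjb : (⟨b, hib.symm⟩ : {w : V // w ≠ i}) ≠ j := fun h' =>
          hj.2 (congrArg Subtype.val h').symm
        exact tw_root (del (del A i) j) ((hA.del i).del j) _ _ (t1.del j hja hjb)
    refine hdone (-A a b) ((adj_sq_nonneg A hA i _ r1).2 hder) ?_
    refine (adj_sq_nonneg B hB i _ ?_).2 ?_
    · rw [← h]; exact r1
    · rw [← h]; exact hder
  · -- eigenvalues `0` and `-1`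
    have hroots : A.charpoly.eval 0 = 0 ∧ A.charpoly.eval (-1) = 0 ∧
        (del A i).charpoly.eval 0 = 0 ∧ (del A i).charpoly.eval (-1) = 0 := by
      have s1 := tw_root A hA a b hab
      have s2 := tw_root A hA c d hcd
      rcases hA.zo a b with h1 | h1 <;> rcases hA.zo c d with h2 | h2
      · exact absurd (h1.trans h2.symm) hε
      · rw [h1, neg_zero] at s1 r1
        rw [h2] at s2 r2
        exact ⟨s1, s2, r1, r2⟩
      · rw [h1] at s1 r1
        rw [h2, neg_zero] at s2 r2
        exact ⟨s2, s1, r2, r1⟩
      · exact absurd (h1.trans h2.symm) hε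
    obtain ⟨p0, p1, q0, q1⟩ := hroots
    by_contra hneq
    have hB0 : B.charpoly.eval 0 = -γ := by
      have h1 := congrArg (eval 0) hγ
      rw [eval_sub, p0, eval_C] at h1
      linarith
    have hB1 : B.charpoly.eval (-1) = -γ := by
      have h1 := congrArg (eval (-1)) hγ
      rw [eval_sub, p1, eval_C] at h1
      linarith
    have hpos : ∀ x : ℤ, A.charpoly.eval x = 0 → B.charpoly.eval x = -γ →
        (del A i).charpoly.eval x = 0 → 0 < γ * (derivative (del A i).charpoly).eval x := by
      intro x hx hx' hq
      have hq' : (del B i).charpoly.eval x = 0 := by rw [← h]; exact hq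
      have h1 := adj_sq_nonneg B hB i x hq'
      rw [hx', ← h] at h1
      have h2 : (derivative (del A i).charpoly).eval x ≠ 0 := by
        intro h0
        exact hneq (hdone x hx (by rw [hx']; exact h1.2 h0))
      have h3 : γ ≠ 0 := by
        intro h0
        exact hneq (hdone x hx (by rw [hx', h0, neg_zero]))
      have h4 : γ * (derivative (del A i).charpoly).eval x ≠ 0 := mul_ne_zero h3 h2
      have h5 : 0 ≤ γ * (derivative (del A i).charpoly).eval x := by linarith [h1.1]
      exact lt_of_le_of_ne h5 h4.symm
    obtain ⟨x, hx1, hx2, hx3⟩ := root_between (del A i).charpoly γ q0 q1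
      (hpos 0 p0 hB0 q0) (hpos (-1) p1 hB1 q1)
    exact no_root (del A i) (hA.del i) (hP.comap Subtype.val) x hx1 hx2 hx3

end Pool.Agent.MP2696
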