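import Mathlib

/-!
# MP_2696ff_co: characteristic polynomials of vertex-deleted split graphs, the algebraic part

For a symmetric integer matrix `S` let `F = S.charpoly` and `W S` the sum of the entries of the
adjugate of `X - S`. The polynomials `F` and `W` of the principal submatrices `S_i` determine `F` and `W`
of `S`, if the size of `S` is at least three.
-/

set_option autoImplicit false

namespace Pool.Agent.MP2696

open Matrix Polynomial

variable {κ : Type*} [Fintype κ] [DecidableEq κ]

/-- The all-ones matrix. -/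
def J (R : Type*) [One R] (κ : Type*) : Matrix κ κ R := Matrix.of fun _ _ => 1

/-- The principal submatrix without the index `i`. -/
def del {R : Type*} (S : Matrix κ κ R) (i : κ) : Matrix {j : κ // j ≠ i} {j : κ // j ≠ i} R :=
  S.submatrix Subtype.val Subtype.val

/-- The row sums of the adjugate of `X - S`. -/
noncomputable def lv (S : Matrix κ κ ℤ) (i : κ) : ℤ[X] := ∑ j, adjugate (charmatrix S) i j

/-- The sum of the entries of the adjugate of `X - S`. -/
noncomputable def W (S : Matrix κ κ ℤ) : ℤ[X] := ∑ i, lv S i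

/-- Principal minors as diagonal entries of the adjugate. -/
theorem adj_diag {R : Type*} [CommRing R] (N : Matrix κ κ R) (i : κ) :
    adjugate N i i = (del N i).det := by
  have h := det_piecewise_one_eq_submatrix_det N (Finset.univ.erase i)
  rw [adjugate_apply]
  have h1 : N.updateRow i (Pi.single i 1) =
      Matrix.of ((Finset.univ.erase i).piecewise N.row (1 : Matrix κ κ R).row) := by
    ext a b
    by_cases ha : a = i
    · subst ha
      simp [Finset.piecewise, Matrix.one_apply, Pi.single_apply, eq_comm]
    · simp [Finset.piecewise, ha, Matrix.updateRow_ne ha]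
  rw [h1, h]
  let e : {j : κ // j ≠ i} ≃ ↥(Finset.univ.erase i) :=
    Equiv.subtypeEquivRight (fun j => by simp)
  rw [← Matrix.det_submatrix_equiv_self e]
  rfl

theorem charmatrix_del (S : Matrix κ κ ℤ) (i : κ) : charmatrix (del S i) = del (charmatrix S) i := by
  ext a b : 1
  by_cases hab : a = b
  · subst hab
    simp [del, charmatrix_apply]
  · have : (a : κ) ≠ b := fun h => hab (Subtype.ext h)
    simp [del, charmatrix_apply, hab, this]

theorem charpoly_del (S : Matrix κ κ ℤ) (i : κ) :
    (del S i).charpoly = adjugate (charmatrix S) i i := by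
  rw [adj_diag, Matrix.charpoly, charmatrix_del]

/-- The derivative of the characteristic polynomial. -/
theorem derivative_charpoly (S : Matrix κ κ ℤ) :
    derivative S.charpoly = ∑ i, (del S i).charpoly := by
  have h1 : ∀ i, (del S i).charpoly =
      ∑ σ : Equiv.Perm κ, (Equiv.Perm.sign σ) •
        ((∏ j ∈ Finset.univ.erase i, charmatrix S j (σ j)) * derivative (charmatrix S i (σ i))) := by
    intro i
    rw [charpoly_del, adjugate_apply, ← det_transpose, det_apply]
    refine Finset.sum_congr rfl fun σ _ => ?_
    congr 1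
    rw [← Finset.mul_prod_erase _ _ (Finset.mem_univ i), mul_comm]
    congr 1
    · refine Finset.prod_congr rfl fun j hj => ?_
      have hj' : j ≠ i := Finset.ne_of_mem_erase hj
      simp [Matrix.updateRow_ne hj']
    · by_cases h : i = σ i
      · simp [charmatrix_apply, ← h]
      · simp [charmatrix_apply, h, Ne.symm h]
  simp_rw [h1]
  rw [Matrix.charpoly, ← det_transpose, det_apply, derivative_sum, Finset.sum_comm]
  refine Finset.sum_congr rfl fun σ _ => ?_
  rw [← Finset.smul_sum]
  have h2 : ∀ (u : ℤˣ) (p : ℤ[X]), derivative (u • p) = u • derivative p := by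
    intro u p
    rw [Units.smul_def, Units.smul_def, derivative_smul]
  rw [h2]
  congr 1
  rw [derivative_prod_finset]
  rfl

theorem charmatrix_add_J (S : Matrix κ κ ℤ) : charmatrix (S + J ℤ κ) = charmatrix S - J ℤ[X] κ := by
  ext a b : 1
  rw [Matrix.sub_apply, charmatrix_apply, charmatrix_apply, Matrix.add_apply, map_add]
  simp only [J, Matrix.of_apply, map_one]
  ring

/-- The rank one perturbation `S + J`. -/
theorem charpoly_add_J (S : Matrix κ κ ℤ) : (S + J ℤ κ).charpoly = S.charpoly - W S := by
  apply FaithfulSMul.algebraMap_injective ℤ[X] (FractionRing ℤ[X])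
  set φ := algebraMap ℤ[X] (FractionRing ℤ[X]) with hφ
  have hinj : Function.Injective φ := FaithfulSMul.algebraMap_injective ℤ[X] (FractionRing ℤ[X])
  set A : Matrix κ κ (FractionRing ℤ[X]) := (charmatrix S).map φ with hA
  have hdet : A.det = φ S.charpoly := by
    rw [Matrix.charpoly, RingHom.map_det]; rfl
  have hd0 : A.det ≠ 0 := by
    rw [hdet]
    exact fun h => S.charpoly_monic.ne_zero ((map_eq_zero_iff φ hinj).1 h)
  have h1 : φ (S + J ℤ κ).charpoly =
      (A + replicateCol Unit (fun _ : κ => (-1 : FractionRing ℤ[X])) *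
        replicateRow Unit (fun _ : κ => (1 : FractionRing ℤ[X]))).det := by
    rw [Matrix.charpoly, charmatrix_add_J, RingHom.map_det]
    congr 1
    ext a b
    simp [hA, J, Matrix.mul_apply, sub_eq_add_neg]
  have h2 : A⁻¹ = (A.det)⁻¹ • A.adjugate := by
    rw [Matrix.inv_def, Ring.inverse_eq_inv']
  have h3 : A.adjugate = (adjugate (charmatrix S)).map φ := by
    have := RingHom.map_adjugate φ (charmatrix S)
    exact this.symm
  have h4 : ((replicateRow Unit (fun _ : κ => (1 : FractionRing ℤ[X])) *
      A⁻¹ * replicateCol Unit (fun _ : κ => (-1 : FractionRing ℤ[X]))) () ()) =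
      - (A.det⁻¹ * ∑ i, ∑ j, φ (adjugate (charmatrix S) i j)) := by
    rw [h2, h3]
    simp only [Matrix.mul_apply, replicateRow_apply, replicateCol_apply, one_mul,
      Matrix.smul_apply, Matrix.map_apply, smul_eq_mul, mul_neg, mul_one, Finset.sum_neg_distrib]
    congr 1
    rw [Finset.sum_comm, Finset.mul_sum]
    refine Finset.sum_congr rfl fun i _ => ?_
    rw [Finset.mul_sum]
  have h5 : (1 + replicateRow Unit (fun _ : κ => (1 : FractionRing ℤ[X])) *
      A⁻¹ * replicateCol Unit (fun _ : κ => (-1 : FractionRing ℤ[X]))).det =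
      1 - A.det⁻¹ * ∑ i, ∑ j, φ (adjugate (charmatrix S) i j) := by
    rw [det_unique, Matrix.add_apply, Matrix.one_apply_eq, sub_eq_add_neg]
    congr 1
  rw [h1, det_add_replicateCol_mul_replicateRow (isUnit_iff_ne_zero.2 hd0), h5, map_sub, ← hdet]
  simp only [W, lv, map_sum]
  field_simp

theorem N_lv (S : Matrix κ κ ℤ) (i : κ) :
    X * lv S i = S.charpoly + ∑ j, C (S i j) * lv S j := by
  have h : ((charmatrix S * adjugate (charmatrix S)).mulVec (fun _ => 1)) i =
      ((charmatrix S).det • (1 : Matrix κ κ ℤ[X])).mulVec (fun _ => 1) i := by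
    rw [mul_adjugate]
  have h3 : (adjugate (charmatrix S)).mulVec (fun _ => 1) = lv S := by
    funext a
    simp [lv, Matrix.mulVec, dotProduct]
  have h2 : ((charmatrix S * adjugate (charmatrix S)).mulVec (fun _ => 1)) i =
      X * lv S i - ∑ j, C (S i j) * lv S j := by
    rw [← Matrix.mulVec_mulVec, h3]
    have h5 : ∀ j, charmatrix S i j * lv S j = (if i = j then X * lv S j else 0) -
        C (S i j) * lv S j := by
      intro j
      rw [charmatrix_apply, sub_mul, Matrix.diagonal_apply]
      split_ifs <;> ring
    simp only [Matrix.mulVec, dotProduct, h5, Finset.sum_sub_distrib]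
    simp
  have h4 : ((charmatrix S).det • (1 : Matrix κ κ ℤ[X])).mulVec (fun _ => 1) i = S.charpoly := by
    rw [Matrix.smul_mulVec]
    simp [Matrix.charpoly]
  rw [h2, h4] at h
  linear_combination h

theorem lv_spec [Nonempty κ] (S : Matrix κ κ ℤ) (i : κ) :
    (lv S i).Monic ∧ (lv S i).natDegree + 1 = Fintype.card κ := by
  obtain ⟨i0, -, hi0⟩ := Finset.exists_max_image Finset.univ (fun j => (lv S j).degree)
    Finset.univ_nonempty
  have hnat : S.charpoly.natDegree = Fintype.card κ := S.charpoly_natDegree_eq_dim
  have hF : S.charpoly.degree = Fintype.card κ := by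
    rw [degree_eq_natDegree S.charpoly_monic.ne_zero, hnat]
  have hpos : 0 < Fintype.card κ := Fintype.card_pos
  have hs : ∀ a, (∑ j, C (S a j) * lv S j).degree ≤ (lv S i0).degree := by
    intro a
    refine (degree_sum_le _ _).trans (Finset.sup_le fun j _ => ?_)
    refine le_trans ?_ (hi0 j (Finset.mem_univ j))
    rw [← smul_eq_C_mul]
    exact degree_smul_le _ _
  have h0 : lv S i0 ≠ 0 := by
    intro h
    have h1 := N_lv S i0
    have h2 : (∑ j, C (S i0 j) * lv S j) = 0 := by
      have := hs i0
      rw [h, degree_zero, le_bot_iff, degree_eq_bot] at this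
      exact this
    rw [h, mul_zero, h2, add_zero] at h1
    exact S.charpoly_monic.ne_zero h1.symm
  have h1 : (X * lv S i0).degree = (lv S i0).degree + 1 := by
    rw [degree_mul, degree_X, add_comm]
  have h2 : (lv S i0).degree < (X * lv S i0).degree := by
    rw [h1, degree_eq_natDegree h0]
    exact_mod_cast Nat.lt_succ_self _
  have h3 : S.charpoly.degree = (lv S i0).degree + 1 := by
    have h4 : S.charpoly = X * lv S i0 - ∑ j, C (S i0 j) * lv S j := by
      rw [N_lv S i0]; ring
    rw [h4, degree_sub_eq_left_of_degree_lt ((hs i0).trans_lt h2), h1]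
  have h4 : (X * lv S i).Monic := by
    rw [N_lv S i]
    refine S.charpoly_monic.add_of_left ((hs i).trans_lt ?_)
    rw [h3, ← h1]
    exact h2
  have h5 : (lv S i).Monic := monic_X.of_mul_monic_left h4
  refine ⟨h5, ?_⟩
  have h6 : (X * lv S i).natDegree = Fintype.card κ := by
    rw [N_lv S i, natDegree_add_eq_left_of_degree_lt, hnat]
    refine (hs i).trans_lt ?_
    rw [h3, ← h1]
    exact h2
  rw [← h6, natDegree_X_mul h5.ne_zero]

theorem del_add_J (S : Matrix κ κ ℤ) (i : κ) : del (S + J ℤ κ) i = del S i + J ℤ {j : κ // j ≠ i} := rfl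

theorem derivative_W (S : Matrix κ κ ℤ) : derivative (W S) = ∑ i, W (del S i) := by
  have h1 : W S = S.charpoly - (S + J ℤ κ).charpoly := by rw [charpoly_add_J]; ring
  rw [h1, derivative_sub, derivative_charpoly, derivative_charpoly, ← Finset.sum_sub_distrib]
  refine Finset.sum_congr rfl fun i _ => ?_
  rw [del_add_J, charpoly_add_J]
  ring

theorem W_coeff [Nonempty κ] (S : Matrix κ κ ℤ) :
    (W S).coeff (Fintype.card κ - 1) = Fintype.card κ ∧
      (W S).degree < Fintype.card κ := by
  constructor
  · rw [W, finsetSum_coeff]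
    have : ∀ i, (lv S i).coeff (Fintype.card κ - 1) = 1 := by
      intro i
      obtain ⟨h1, h2⟩ := lv_spec S i
      rw [← h2, Nat.add_sub_cancel]
      exact h1
    simp [this]
  · rw [W]
    refine (degree_sum_le _ _).trans_lt ?_
    rw [Finset.sup_lt_iff (WithBot.bot_lt_coe _)]
    intro i _
    obtain ⟨h1, h2⟩ := lv_spec S i
    rw [degree_eq_natDegree h1.ne_zero]
    have : (lv S i).natDegree < Fintype.card κ := by omega
    exact_mod_cast this

theorem W_ne_zero [Nonempty κ] (S : Matrix κ κ ℤ) : W S ≠ 0 := by
  intro h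
  have h1 := (W_coeff S).1
  rw [h, coeff_zero] at h1
  have : 0 < Fintype.card κ := Fintype.card_pos
  omega

/-- The Jacobi identity for the bordered matrix. -/
theorem lv_sq (S : Matrix κ κ ℤ) (hS : S.IsSymm) (i : κ) :
    lv S i ^ 2 = W S * (del S i).charpoly - S.charpoly * W (del S i) := by
  have hNs : (charmatrix S).IsSymm := by
    ext a b : 1
    rw [Matrix.transpose_apply, charmatrix_apply, charmatrix_apply, hS.apply a b]
    by_cases h : a = b
    · subst h; rfl
    · rw [Matrix.diagonal_apply_ne _ h, Matrix.diagonal_apply_ne _ (Ne.symm h)]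
  have has : (adjugate (charmatrix S)).IsSymm := by
    rw [Matrix.IsSymm, adjugate_transpose, hNs.eq]
  set N := charmatrix S with hN
  set a := adjugate N with ha
  set l : κ → ℤ[X] := lv S with hl
  have hcol : ∀ j, ∑ z, a z j = l j := by
    intro j
    rw [hl, lv]
    refine Finset.sum_congr rfl fun z _ => ?_
    exact has.apply j z
  have hJa : J ℤ[X] κ * a = Matrix.vecMulVec (fun _ => 1) l := by
    ext x y : 1
    rw [Matrix.mul_apply, Matrix.vecMulVec_apply, one_mul, ← hcol y]
    refine Finset.sum_congr rfl fun z _ => ?_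
    rw [J, Matrix.of_apply, one_mul]
  have hNl : N.mulVec l = fun _ => S.charpoly := by
    have h3 : a.mulVec (fun _ => 1) = l := by
      funext x
      simp [hl, lv, Matrix.mulVec, dotProduct, ha, hN]
    rw [← h3, Matrix.mulVec_mulVec, ha, mul_adjugate, Matrix.smul_mulVec, Matrix.one_mulVec]
    funext x
    simp [Matrix.charpoly, hN]
  have hJl : (J ℤ[X] κ).mulVec l = fun _ => W S := by
    funext x
    simp [J, Matrix.mulVec, dotProduct, W, hl]
  set F := S.charpoly with hF
  have hdet' : (charmatrix (S + J ℤ κ)).det = F - W S := charpoly_add_J S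
  have hdet0 : F - W S ≠ 0 := by
    rw [← hdet']
    exact (S + J ℤ κ).charpoly_monic.ne_zero
  have key : charmatrix (S + J ℤ κ) * ((F - W S) • a + Matrix.vecMulVec l l) =
      ((F - W S) * F) • 1 := by
    rw [charmatrix_add_J, Matrix.sub_mul, Matrix.mul_add, Matrix.mul_add, Matrix.mul_smul,
      Matrix.mul_smul, ← hN, ha, mul_adjugate, ← ha, hJa, Matrix.mul_vecMulVec,
      Matrix.mul_vecMulVec, hNl, hJl]
    ext x y : 1
    simp only [Matrix.sub_apply, Matrix.add_apply, Matrix.smul_apply, Matrix.vecMulVec_apply,
      smul_eq_mul]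
    rw [show N.det = F from rfl]
    ring
  have key2 : (F - W S) • ((F - W S) • a + Matrix.vecMulVec l l) =
      (F - W S) • (F • adjugate (charmatrix (S + J ℤ κ))) := by
    have h : adjugate (charmatrix (S + J ℤ κ)) *
        (charmatrix (S + J ℤ κ) * ((F - W S) • a + Matrix.vecMulVec l l)) =
        adjugate (charmatrix (S + J ℤ κ)) * (((F - W S) * F) • 1) := by rw [key]
    rw [← Matrix.mul_assoc, adjugate_mul, hdet', Matrix.smul_mul, Matrix.one_mul,
      Matrix.mul_smul, Matrix.mul_one] at h
    rw [h, smul_smul]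
  have key3 := congrFun (congrFun key2 i) i
  simp only [Matrix.smul_apply, Matrix.add_apply, Matrix.vecMulVec_apply, smul_eq_mul] at key3
  have key4 := mul_left_cancel₀ hdet0 key3
  have haii : a i i = (del S i).charpoly := (charpoly_del S i).symm
  rw [← charpoly_del, haii, del_add_J, charpoly_add_J] at key4
  linear_combination key4

/-- The main algebraic statement. -/
theorem core (S T : Matrix κ κ ℤ) (hS : S.IsSymm) (hT : T.IsSymm) (hk : 3 ≤ Fintype.card κ)
    (h1 : ∀ i, (del S i).charpoly = (del T i).charpoly) (h2 : ∀ i, W (del S i) = W (del T i)) :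
    S.charpoly = T.charpoly ∧ W S = W T := by
  have hne : Nonempty κ := Fintype.card_pos_iff.1 (by omega)
  have hcard : ∀ i : κ, Fintype.card {j : κ // j ≠ i} = Fintype.card κ - 1 := by
    intro i
    rw [Fintype.card_subtype_compl, Fintype.card_subtype_eq]
  have hnei : ∀ i : κ, Nonempty {j : κ // j ≠ i} := by
    intro i
    refine Fintype.card_pos_iff.1 ?_
    rw [hcard]
    omega
  obtain ⟨α, hα⟩ : ∃ α : ℤ, T.charpoly - S.charpoly = C α := by
    have : derivative (T.charpoly - S.charpoly) = 0 := by
      rw [derivative_sub, derivative_charpoly, derivative_charpoly, sub_eq_zero]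
      exact Finset.sum_congr rfl fun i _ => (h1 i).symm
    exact ⟨_, eq_C_of_derivative_eq_zero this⟩
  obtain ⟨β, hβ⟩ : ∃ β : ℤ, W T - W S = C β := by
    have : derivative (W T - W S) = 0 := by
      rw [derivative_sub, derivative_W, derivative_W, sub_eq_zero]
      exact Finset.sum_congr rfl fun i _ => (h2 i).symm
    exact ⟨_, eq_C_of_derivative_eq_zero this⟩
  have hprod : ∀ i, (lv T i - lv S i) * (lv T i + lv S i) =
      C β * (del S i).charpoly - C α * W (del S i) := by
    intro i
    have e1 := lv_sq S hS i
    have e2 := lv_sq T hT i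
    rw [← h1, ← h2] at e2
    rw [← hα, ← hβ]
    linear_combination e2 - e1
  -- the sum has degree `k - 1` and leading coefficient `2`
  have hsum : ∀ i, (lv T i + lv S i).natDegree = Fintype.card κ - 1 ∧
      (lv T i + lv S i).leadingCoeff = 2 := by
    intro i
    obtain ⟨a1, a2⟩ := lv_spec T i
    obtain ⟨b1, b2⟩ := lv_spec S i
    have hc : (lv T i + lv S i).coeff (Fintype.card κ - 1) = 2 := by
      rw [coeff_add]
      have e1 : (lv T i).coeff (Fintype.card κ - 1) = 1 := by
        rw [← a2, Nat.add_sub_cancel]; exact a1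
      have e2 : (lv S i).coeff (Fintype.card κ - 1) = 1 := by
        rw [← b2, Nat.add_sub_cancel]; exact b1
      rw [e1, e2]
      norm_num
    have hle : (lv T i + lv S i).natDegree ≤ Fintype.card κ - 1 := by
      refine (natDegree_add_le _ _).trans (max_le ?_ ?_) <;> omega
    have hd : (lv T i + lv S i).natDegree = Fintype.card κ - 1 := by
      refine le_antisymm hle (le_natDegree_of_ne_zero ?_)
      rw [hc]
      norm_num
    refine ⟨hd, ?_⟩
    rw [leadingCoeff, hd, hc]
  have hsne : ∀ i, lv T i + lv S i ≠ 0 := by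
    intro i h
    have := (hsum i).2
    rw [h, leadingCoeff_zero] at this
    norm_num at this
  have hcp : ∀ i, (del S i).charpoly.natDegree = Fintype.card κ - 1 := by
    intro i
    rw [charpoly_natDegree_eq_dim, hcard]
  have hWd : ∀ i, (W (del S i)).degree < (Fintype.card κ - 1 : ℕ) := by
    intro i
    have := (W_coeff (del S i)).2
    rwa [hcard] at this
  have hWn : ∀ i, (W (del S i)).natDegree < Fintype.card κ - 1 := by
    intro i
    exact (natDegree_lt_iff_degree_lt (W_ne_zero _)).2 (hWd i)
  have hrhs : ∀ i, (C β * (del S i).charpoly - C α * W (del S i)).natDegree ≤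
      Fintype.card κ - 1 := by
    intro i
    refine (natDegree_sub_le _ _).trans (max_le ?_ ?_)
    · refine (natDegree_C_mul_le _ _).trans (hcp i).le
    · refine (natDegree_C_mul_le _ _).trans (hWn i).le
  have hδ : ∀ i, ∃ e : ℤ, lv T i - lv S i = C e ∧ 2 * e = β := by
    intro i
    have hdz : (lv T i - lv S i).natDegree = 0 := by
      by_contra hne0
      have hn0 : lv T i - lv S i ≠ 0 := by
        intro h
        rw [h] at hne0
        exact hne0 natDegree_zero
      have := hrhs i
      rw [← hprod i, natDegree_mul hn0 (hsne i), (hsum i).1] at this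
      omega
    obtain ⟨e, he⟩ := natDegree_eq_zero.1 hdz
    refine ⟨e, he.symm, ?_⟩
    have h3 : ((lv T i - lv S i) * (lv T i + lv S i)).coeff (Fintype.card κ - 1) =
        (C β * (del S i).charpoly - C α * W (del S i)).coeff (Fintype.card κ - 1) := by
      rw [hprod i]
    rw [← he, coeff_C_mul, coeff_sub, coeff_C_mul, coeff_C_mul,
      coeff_eq_zero_of_degree_lt (hWd i), mul_zero, sub_zero] at h3
    have h4 : (lv T i + lv S i).coeff (Fintype.card κ - 1) = 2 := by
      have := (hsum i).2
      rwa [leadingCoeff, (hsum i).1] at this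
    have h5 : (del S i).charpoly.coeff (Fintype.card κ - 1) = 1 := by
      have := (del S i).charpoly_monic
      rwa [Monic, leadingCoeff, hcp i] at this
    rw [h4, h5] at h3
    linarith
  choose e he1 he2 using hδ
  have hβ0 : β = 0 := by
    have h3 : W T - W S = C (∑ i, e i) := by
      rw [W, W, ← Finset.sum_sub_distrib, map_sum]
      exact Finset.sum_congr rfl fun i _ => he1 i
    rw [hβ] at h3
    have h4 : β = ∑ i, e i := C_injective h3
    have h5 : 2 * β = Fintype.card κ * β := by
      calc 2 * β = ∑ i, 2 * e i := by rw [h4, Finset.mul_sum]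
        _ = ∑ _i : κ, β := Finset.sum_congr rfl fun i _ => he2 i
        _ = Fintype.card κ * β := by simp
    have h6 : ((Fintype.card κ : ℤ) - 2) * β = 0 := by linarith
    rcases mul_eq_zero.1 h6 with h7 | h7
    · omega
    · exact h7
  have hα0 : α = 0 := by
    obtain ⟨i⟩ := hne
    have h3 := hprod i
    have h4 : e i = 0 := by
      have := he2 i
      omega
    rw [he1 i, h4, hβ0, map_zero, zero_mul, zero_mul, zero_sub, zero_eq_neg] at h3
    rcases mul_eq_zero.1 h3 with h5 | h5
    · exact C_eq_zero.1 h5
    · exact absurd h5 (W_ne_zero _)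
  rw [hα0, map_zero, sub_eq_zero] at hα
  rw [hβ0, map_zero, sub_eq_zero] at hβ
  exact ⟨hα.symm, hβ.symm⟩

end Pool.Agent.MP2696
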