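import Mathlib

/-!
# MP_2696ff_co: graphs without induced path on four vertices
-/

set_option autoImplicit false

namespace Pool.Agent.MP2696

open Relation

/-- No induced path on four vertices (the vertices are distinct automatically). -/
def P4Free {V : Type*} (G : SimpleGraph V) : Prop :=
  ∀ a b c d, G.Adj a b → G.Adj b c → G.Adj c d → ¬ G.Adj a c → ¬ G.Adj b d → G.Adj a d

theorem P4Free.compl {V : Type*} {G : SimpleGraph V} (h : P4Free G) : P4Free Gᶜ := by
  intro a b c d hab hbc hcd hac hbd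
  rw [SimpleGraph.compl_adj] at hab hbc hcd hac hbd ⊢
  by_cases e1 : a = c
  · subst e1; exact hcd
  by_cases e2 : b = d
  · subst e2; exact hab
  have hac' : G.Adj a c := by
    by_contra h'
    exact hac ⟨e1, h'⟩
  have hbd' : G.Adj b d := by
    by_contra h'
    exact hbd ⟨e2, h'⟩
  refine ⟨?_, fun had => ?_⟩
  · rintro rfl
    exact hcd.2 hac'.symm
  · exact hbc.2 (h c a d b hac'.symm had hbd'.symm hcd.2 hab.2).symm

theorem P4Free.comap {V W : Type*} {G : SimpleGraph V} (h : P4Free G) (f : W → V) :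
    P4Free (G.comap f) :=
  fun a b c d h1 h2 h3 h4 h5 => h (f a) (f b) (f c) (f d) h1 h2 h3 h4 h5

/-- One step of the theorem of Seinsche. -/
theorem seinsche_step {V : Type*} (G : SimpleGraph V) (h : P4Free G) (v : V) (S : Set V)
    (h1 : ∃ x ∈ S, x ≠ v) (h2 : ∃ y, y ∉ S ∧ y ≠ v)
    (h3 : ∀ x ∈ S, ∀ y, y ∉ S → x ≠ v → y ≠ v → ¬ G.Adj x y) :
    ∃ T : Set V, T.Nonempty ∧ Tᶜ.Nonempty ∧
      ((∀ x ∈ T, ∀ y, y ∉ T → ¬ G.Adj x y) ∨ ∀ x ∈ T, ∀ y, y ∉ T → G.Adj x y) := by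
  let r : V → V → Prop := fun x y => G.Adj x y ∧ x ≠ v ∧ y ≠ v
  have hrs : ∀ x y, r x y → r y x := fun x y h => ⟨h.1.symm, h.2.2, h.2.1⟩
  have hsym : ∀ x y, ReflTransGen r x y → ReflTransGen r y x := by
    intro x y hxy
    induction hxy with
    | refl => exact ReflTransGen.refl
    | tail _ h2 ih => exact ReflTransGen.head (hrs _ _ h2) ih
  have hne : ∀ x y, x ≠ v → ReflTransGen r x y → y ≠ v := by
    intro x y hx hxy
    induction hxy with
    | refl => exact hx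
    | tail _ h2 _ => exact h2.2.2
  -- reachable vertices stay on the side of `S`
  have hside : ∀ x y, x ≠ v → ReflTransGen r x y → (x ∈ S ↔ y ∈ S) := by
    intro x y hx hxy
    induction hxy with
    | refl => exact Iff.rfl
    | @tail b c hb h2 ih =>
      rw [ih]
      constructor
      · intro hbS
        by_contra hc
        exact h3 b hbS c hc h2.2.1 h2.2.2 h2.1
      · intro hcS
        by_contra hbS
        exact h3 c hcS b hbS h2.2.2 h2.2.1 h2.1.symm
  by_cases hA : ∃ u, u ≠ v ∧ ∀ w, ReflTransGen r u w → ¬ G.Adj v w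
  · obtain ⟨u, huv, hu⟩ := hA
    refine ⟨{w | ReflTransGen r u w}, ⟨u, ReflTransGen.refl⟩, ⟨v, fun hv => hne u v huv hv rfl⟩,
      Or.inl ?_⟩
    intro x hx y hy hxy
    by_cases hyv : y = v
    · subst hyv
      exact hu x hx hxy.symm
    · exact hy (ReflTransGen.tail hx ⟨hxy, hne u x huv hx, hyv⟩)
  · push Not at hA
    by_cases hB : ∀ u, u ≠ v → G.Adj v u
    · obtain ⟨x, -, hx⟩ := h1
      refine ⟨{v}, ⟨v, rfl⟩, ⟨x, hx⟩, Or.inr ?_⟩
      rintro a rfl y hy
      exact hB y hy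
    · exfalso
      push Not at hB
      obtain ⟨u, huv, hvu⟩ := hB
      obtain ⟨t, hut, hvt⟩ := hA u huv
      -- a vertex on the other side
      obtain ⟨z0, hz0, hz0S⟩ : ∃ z0, z0 ≠ v ∧ ¬ (u ∈ S ↔ z0 ∈ S) := by
        by_cases huS : u ∈ S
        · obtain ⟨y, hyS, hyv⟩ := h2
          exact ⟨y, hyv, fun h => hyS (h.1 huS)⟩
        · obtain ⟨x, hxS, hxv⟩ := h1
          exact ⟨x, hxv, fun h => huS (h.2 hxS)⟩
      obtain ⟨z, hz0z, hvz⟩ := hA z0 hz0
      have hzv : z ≠ v := hne z0 z hz0 hz0z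
      have hnr : ∀ w, ReflTransGen r u w → ¬ ReflTransGen r w z := by
        intro w huw hwz
        refine hz0S ?_
        rw [hside u z huv (huw.trans hwz), ← hside z0 z hz0 hz0z]
      -- the boundary pair
      obtain ⟨y, x, huy, hyx, hvy, hvx⟩ : ∃ y x, ReflTransGen r u y ∧ r y x ∧ ¬ G.Adj v y ∧
          G.Adj v x := by
        by_contra hcon
        push Not at hcon
        have : ∀ w, ReflTransGen r u w → ¬ G.Adj v w := by
          intro w huw
          induction huw with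
          | refl => exact hvu
          | @tail b c hb h2 ih => exact hcon b c hb h2 ih
        exact this t hut hvt
      have hux : ReflTransGen r u x := huy.tail hyx
      have hxz : ¬ G.Adj x z := fun hxz =>
        hnr x hux (ReflTransGen.single ⟨hxz, hyx.2.2, hzv⟩)
      have hyz : G.Adj y z := h y x v z hyx.1 hvx.symm hvz (fun h => hvy h.symm) hxz
      exact hnr y huy (ReflTransGen.single ⟨hyz, hyx.2.1, hzv⟩)

theorem card_two {V : Type*} [Fintype V] (h : Fintype.card V = 2) :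
    ∃ x y : V, x ≠ y ∧ ∀ w, w = x ∨ w = y := by
  classical
  obtain ⟨x, y, hxy, hu⟩ := Finset.card_eq_two.1 (show (Finset.univ : Finset V).card = 2 from h)
  refine ⟨x, y, hxy, fun w => ?_⟩
  have := Finset.mem_univ w
  rw [hu] at this
  simpa using this

/-- The theorem of Seinsche. -/
theorem seinsche (n : ℕ) : ∀ (V : Type) [Fintype V] (G : SimpleGraph V), P4Free G →
    Fintype.card V = n → 2 ≤ n →
    ∃ T : Set V, T.Nonempty ∧ Tᶜ.Nonempty ∧
      ((∀ x ∈ T, ∀ y, y ∉ T → ¬ G.Adj x y) ∨ ∀ x ∈ T, ∀ y, y ∉ T → G.Adj x y) := by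
  classical
  induction n with
  | zero => intro V _ G _ _ h; omega
  | succ n ih =>
    intro V _ G hG hc hn
    by_cases hn2 : n = 1
    · subst hn2
      obtain ⟨x, y, hxy, hu⟩ := card_two hc
      refine ⟨{x}, ⟨x, rfl⟩, ⟨y, fun h => hxy h.symm⟩, ?_⟩
      by_cases ha : G.Adj x y
      · right
        rintro a rfl b hb
        rcases hu b with rfl | rfl
        · exact absurd rfl hb
        · exact ha
      · left
        rintro a rfl b hb
        rcases hu b with rfl | rfl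
        · exact absurd rfl hb
        · exact ha
    · have hne : Nonempty V := Fintype.card_pos_iff.1 (by omega)
      obtain ⟨v⟩ := hne
      have hcv : Fintype.card {w : V // w ≠ v} = n := by
        rw [Fintype.card_subtype_compl, Fintype.card_subtype_eq, hc]
        omega
      obtain ⟨T, ⟨⟨x, hxv⟩, hx⟩, ⟨⟨y, hyv⟩, hy⟩, hT⟩ :=
        ih {w : V // w ≠ v} (G.comap Subtype.val) (hG.comap _) hcv (by omega)
      let S : Set V := {w | ∃ h : w ≠ v, (⟨w, h⟩ : {w : V // w ≠ v}) ∈ T}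
      have h1 : ∃ x ∈ S, x ≠ v := ⟨x, ⟨hxv, hx⟩, hxv⟩
      have h2 : ∃ y, y ∉ S ∧ y ≠ v := ⟨y, fun ⟨_, h⟩ => hy h, hyv⟩
      rcases hT with hT | hT
      · exact seinsche_step G hG v S h1 h2 (fun a ha b hb _ hbv hab =>
          hT ⟨a, ha.1⟩ ha.2 ⟨b, hbv⟩ (fun h => hb ⟨hbv, h⟩) hab)
      · obtain ⟨T', a1, a2, a3⟩ := seinsche_step Gᶜ hG.compl v S h1 h2 (fun a ha b hb _ hbv hab => by
          rw [SimpleGraph.compl_adj] at hab
          exact hab.2 (hT ⟨a, ha.1⟩ ha.2 ⟨b, hbv⟩ (fun h => hb ⟨hbv, h⟩)))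
        refine ⟨T', a1, a2, ?_⟩
        rcases a3 with a3 | a3
        · right
          intro x hx y hy
          by_contra hxy
          refine a3 x hx y hy ?_
          rw [SimpleGraph.compl_adj]
          exact ⟨fun h => hy (h ▸ hx), hxy⟩
        · left
          intro x hx y hy hxy
          have := a3 x hx y hy
          rw [SimpleGraph.compl_adj] at this
          exact this.2 hxy

/-- The vertices `a`, `b` are twins. -/
def Twin {V : Type*} (G : SimpleGraph V) (a b : V) : Prop :=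
  a ≠ b ∧ ∀ w, w ≠ a → w ≠ b → (G.Adj a w ↔ G.Adj b w)

theorem Twin.of_comap {V : Type*} {G : SimpleGraph V} {T : Set V} {a b : T}
    (h : Twin (G.comap (Subtype.val : T → V)) a b)
    (hT : (∀ x ∈ T, ∀ y, y ∉ T → ¬ G.Adj x y) ∨ ∀ x ∈ T, ∀ y, y ∉ T → G.Adj x y) :
    Twin G (a : V) b := by
  refine ⟨fun h' => h.1 (Subtype.ext h'), fun w hwa hwb => ?_⟩
  by_cases hw : w ∈ T
  · exact h.2 ⟨w, hw⟩ (fun h' => hwa (congrArg Subtype.val h'))
      (fun h' => hwb (congrArg Subtype.val h'))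
  · rcases hT with hT | hT
    · exact iff_of_false (hT a a.2 w hw) (hT b b.2 w hw)
    · exact iff_of_true (hT a a.2 w hw) (hT b b.2 w hw)

theorem exists_twin (n : ℕ) : ∀ (V : Type) [Fintype V] (G : SimpleGraph V), P4Free G →
    Fintype.card V = n → 2 ≤ n → ∃ a b, Twin G a b := by
  classical
  induction n using Nat.strong_induction_on with
  | _ n ih =>
    intro V _ G hG hc hn
    obtain ⟨T, ⟨x, hx⟩, ⟨y, hy⟩, hT⟩ := seinsche n V G hG hc hn
    have hsum : Fintype.card T + Fintype.card (Tᶜ : Set V) = n := by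
      rw [← hc, ← Set.toFinset_card, ← Set.toFinset_card, Set.toFinset_compl,
        Finset.card_add_card_compl]
    have hT' : (∀ x ∈ Tᶜ, ∀ y, y ∉ Tᶜ → ¬ G.Adj x y) ∨ ∀ x ∈ Tᶜ, ∀ y, y ∉ Tᶜ → G.Adj x y := by
      rcases hT with hT | hT
      · exact Or.inl fun x hx y hy hxy => hT y (not_not.1 hy) x hx hxy.symm
      · exact Or.inr fun x hx y hy => (hT y (not_not.1 hy) x hx).symm
    have hpos : 0 < Fintype.card T := Fintype.card_pos_iff.2 ⟨⟨x, hx⟩⟩
    have hpos' : 0 < Fintype.card (Tᶜ : Set V) := Fintype.card_pos_iff.2 ⟨⟨y, hy⟩⟩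
    by_cases h1 : 2 ≤ Fintype.card T
    · obtain ⟨a, b, hab⟩ := ih (Fintype.card T) (by omega) T (G.comap Subtype.val) (hG.comap _)
        rfl h1
      exact ⟨a, b, hab.of_comap hT⟩
    by_cases h2 : 2 ≤ Fintype.card (Tᶜ : Set V)
    · obtain ⟨a, b, hab⟩ := ih (Fintype.card (Tᶜ : Set V)) (by omega) (Tᶜ : Set V)
        (G.comap Subtype.val) (hG.comap _) rfl h2
      exact ⟨a, b, hab.of_comap hT'⟩
    have hn2 : Fintype.card V = 2 := by omega
    obtain ⟨a, b, hab, hu⟩ := card_two hn2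
    refine ⟨a, b, hab, fun w hwa hwb => ?_⟩
    rcases hu w with rfl | rfl
    · exact absurd rfl hwa
    · exact absurd rfl hwb

/-- Two disjoint pairs of twins, if there is no isolated and no dominating vertex. -/
theorem two_twins (V : Type) [Fintype V] (G : SimpleGraph V) (hG : P4Free G)
    (hc : 2 ≤ Fintype.card V) (hiso : ∀ v, ∃ w, G.Adj v w) (hdom : ∀ v, ∃ w, w ≠ v ∧ ¬ G.Adj v w) :
    ∃ T : Set V, ((∀ x ∈ T, ∀ y, y ∉ T → ¬ G.Adj x y) ∨ ∀ x ∈ T, ∀ y, y ∉ T → G.Adj x y) ∧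
      ∃ a b c d, a ∈ T ∧ b ∈ T ∧ c ∉ T ∧ d ∉ T ∧ Twin G a b ∧ Twin G c d := by
  classical
  obtain ⟨T, ⟨x, hx⟩, ⟨y, hy⟩, hT⟩ := seinsche _ V G hG rfl hc
  have hT' : (∀ x ∈ Tᶜ, ∀ y, y ∉ Tᶜ → ¬ G.Adj x y) ∨ ∀ x ∈ Tᶜ, ∀ y, y ∉ Tᶜ → G.Adj x y := by
    rcases hT with hT | hT
    · exact Or.inl fun x hx y hy hxy => hT y (not_not.1 hy) x hx hxy.symm
    · exact Or.inr fun x hx y hy => (hT y (not_not.1 hy) x hx).symm
  have key : ∀ (S : Set V) (s : V), s ∈ S →
      ((∀ x ∈ S, ∀ y, y ∉ S → ¬ G.Adj x y) ∨ ∀ x ∈ S, ∀ y, y ∉ S → G.Adj x y) →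
      Nontrivial S := by
    intro S s hs hS
    by_contra hlt
    have hone : ∀ w ∈ S, w = s := by
      intro w hw
      by_contra hws
      exact hlt ⟨⟨w, hw⟩, ⟨s, hs⟩, fun h => hws (congrArg Subtype.val h)⟩
    rcases hS with hS | hS
    · obtain ⟨w, hw⟩ := hiso s
      exact hS s hs w (fun h => G.ne_of_adj hw (hone w h).symm) hw
    · obtain ⟨w, hws, hw⟩ := hdom s
      exact hw (hS s hs w (fun h => hws (hone w h)))
  obtain ⟨a, b, hab⟩ := exists_twin _ T (G.comap Subtype.val) (hG.comap _) rfl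
    (Fintype.one_lt_card_iff_nontrivial.2 (key T x hx hT))
  obtain ⟨c, d, hcd⟩ := exists_twin _ (Tᶜ : Set V) (G.comap Subtype.val) (hG.comap _) rfl
    (Fintype.one_lt_card_iff_nontrivial.2 (key Tᶜ y hy hT'))
  exact ⟨T, hT, a, b, c, d, a.2, b.2, c.2, d.2, hab.of_comap hT, hcd.of_comap hT'⟩

end Pool.Agent.MP2696
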