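import Pool.Agent.Lib.MP_2696ff_co.Blocks

/-!
# MP_2696ff_co: split graphs are reconstructible from the polynomial deck
-/

set_option autoImplicit false

namespace Pool.Agent.MP2696
open Matrix Polynomial
variable {V : Type*} [Fintype V] [DecidableEq V]

/-- A zero-one symmetric matrix with zero diagonal. -/
structure Adj (A : Matrix V V ℤ) : Prop where
  symm : ∀ i j, A i j = A j i
  diag : ∀ i, A i i = 0
  zo : ∀ i j, A i j = 0 ∨ A i j = 1

theorem sum_offDiag_eq (f : V → V → ℤ) (hf : ∀ i j, f i j = f j i) (g : Finset V → ℤ)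
    (hg : ∀ i j, i ≠ j → g {i, j} = f i j) :
    ∑ p ∈ (Finset.univ : Finset V).offDiag, f p.1 p.2 = 2 * ∑ s ∈ Finset.univ.powersetCard 2, g s := by
  rw [Finset.mul_sum]
  rw [← Finset.sum_fiberwise_of_maps_to (s := (Finset.univ : Finset V).offDiag)
    (t := Finset.univ.powersetCard 2) (g := fun p : V × V => ({p.1, p.2} : Finset V))]
  · refine Finset.sum_congr rfl fun s hs => ?_
    obtain ⟨a, b, hab, rfl⟩ := Finset.card_eq_two.1 (Finset.mem_powersetCard.1 hs).2
    have h1 : (Finset.univ : Finset V).offDiag.filter (fun p : V × V => ({p.1, p.2} : Finset V) = {a, b}) =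
        {(a, b), (b, a)} := by
      ext ⟨x, y⟩
      simp only [Finset.mem_filter, Finset.mem_offDiag, Finset.mem_univ, true_and,
        Finset.mem_insert, Finset.mem_singleton, Prod.mk.injEq]
      constructor
      · rintro ⟨hxy, h⟩
        have hx : x ∈ ({a, b} : Finset V) := by rw [← h]; simp
        have hy : y ∈ ({a, b} : Finset V) := by rw [← h]; simp
        simp only [Finset.mem_insert, Finset.mem_singleton] at hx hy
        rcases hx with rfl | rfl <;> rcases hy with rfl | rfl
        · exact absurd rfl hxy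
        · exact Or.inl ⟨rfl, rfl⟩
        · exact Or.inr ⟨rfl, rfl⟩
        · exact absurd rfl hxy
      · rintro (⟨rfl, rfl⟩ | ⟨rfl, rfl⟩)
        · exact ⟨hab, rfl⟩
        · exact ⟨hab.symm, Finset.pair_comm _ _⟩
    rw [h1, Finset.sum_pair (by simp [hab])]
    rw [hg a b hab, hf b a]
    ring
  · rintro ⟨x, y⟩ h
    simp only [Finset.mem_offDiag, Finset.mem_univ, true_and] at h
    exact Finset.mem_powersetCard.2 ⟨Finset.subset_univ _, Finset.card_pair h⟩

theorem sum_entries (A : Matrix V V ℤ) (hA : Adj A) (hV : 2 ≤ Fintype.card V) :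
    ∑ i, ∑ j, A i j = -2 * A.charpoly.coeff (Fintype.card V - 2) := by
  rw [charpoly_coeff_eq_sum_minors A 2 hV]
  have h1 := sum_offDiag_eq (fun i j => A i j) hA.symm
    (fun s => -(A.submatrix (Subtype.val : s → V) (Subtype.val : s → V)).det) ?_
  · have h2 : ∑ i, ∑ j, A i j = ∑ p ∈ (Finset.univ : Finset V).offDiag, A p.1 p.2 := by
      rw [(Fintype.sum_prod_type' (fun i j => A i j)).symm]
      refine (Finset.sum_subset (Finset.subset_univ _) ?_).symm
      rintro ⟨x, y⟩ - h
      simp only [Finset.mem_offDiag, Finset.mem_univ, true_and, not_not] at h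
      rw [← (show x = y from by simpa using h)]
      exact hA.diag x
    rw [h2, h1, Finset.sum_neg_distrib]
    ring
  · intro i j hij
    have h3 : (A.submatrix (Subtype.val : ({i, j} : Finset V) → V)
        (Subtype.val : ({i, j} : Finset V) → V)).det = - (A i j * A j i) := by
      let e : Fin 2 ≃ ({i, j} : Finset V) := 
        { toFun := ![⟨i, by simp⟩, ⟨j, by simp⟩]
          invFun := fun x => if (x : V) = i then 0 else 1
          left_inv := by
            intro x
            fin_cases x
            · simp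
            · simp [hij.symm]
          right_inv := by
            rintro ⟨x, hx⟩
            simp only [Finset.mem_insert, Finset.mem_singleton] at hx
            rcases hx with rfl | rfl
            · simp
            · simp [hij.symm] }
      rw [← det_submatrix_equiv_self e, det_fin_two]
      simp [e, hA.diag]
    simp only [h3, neg_neg]
    rcases hA.zo i j with h | h <;> rw [← hA.symm i j, h] <;> norm_num

theorem Adj.del {A : Matrix V V ℤ} (hA : Adj A) (v : V) : Adj (del A v) where
  symm := fun i j => hA.symm i j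
  diag := fun i => hA.diag i
  zo := fun i j => hA.zo i j

theorem Adj.submatrix {V' : Type*} {A : Matrix V V ℤ} (hA : Adj A) (e : V' → V) :
    Adj (A.submatrix e e) where
  symm := fun _ _ => hA.symm _ _
  diag := fun _ => hA.diag _
  zo := fun _ _ => hA.zo _ _

/-- The deck determines the degrees. -/
theorem row_sums (A B : Matrix V V ℤ) (hA : Adj A) (hB : Adj B) (hV : 3 ≤ Fintype.card V)
    (h : ∀ v, (del A v).charpoly = (del B v).charpoly) (v : V) : ∑ w, A v w = ∑ w, B v w := by
  have hc : ∀ v : V, Fintype.card {w : V // w ≠ v} = Fintype.card V - 1 := by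
    intro v
    rw [Fintype.card_subtype_compl, Fintype.card_subtype_eq]
  have hdel : ∀ M : Matrix V V ℤ, Adj M → ∀ v,
      ∑ i, ∑ j, del M v i j = ∑ i, ∑ j, M i j - 2 * ∑ w, M v w := by
    intro M hM v
    have h1 : ∀ f : V → ℤ, ∑ i : {w : V // w ≠ v}, f i = ∑ i, f i - f v := by
      intro f
      rw [Fintype.sum_eq_add_sum_subtype_ne f v]
      ring
    have h2 : ∀ i : {w : V // w ≠ v}, ∑ j, del M v i j = ∑ j, M i j - M i v := by
      intro i
      exact h1 (fun j => M i j)
    simp_rw [h2]
    rw [h1 (fun i => ∑ j, M i j - M i v), Finset.sum_sub_distrib, hM.diag v]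
    have h3 : ∑ x, M x v = ∑ w, M v w := Finset.sum_congr rfl fun x _ => hM.symm x v
    rw [h3]
    ring
  have h1 : ∀ v, ∑ i, ∑ j, A i j - 2 * ∑ w, A v w = ∑ i, ∑ j, B i j - 2 * ∑ w, B v w := by
    intro v
    rw [← hdel A hA v, ← hdel B hB v, sum_entries _ (hA.del v) (by rw [hc]; omega),
      sum_entries _ (hB.del v) (by rw [hc]; omega), h v]
  have h2 : ∑ v, (∑ i, ∑ j, A i j - 2 * ∑ w, A v w) = ∑ v, (∑ i, ∑ j, B i j - 2 * ∑ w, B v w) :=
    Finset.sum_congr rfl fun v _ => h1 v
  rw [Finset.sum_sub_distrib, Finset.sum_sub_distrib, ← Finset.mul_sum, ← Finset.mul_sum,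
    Finset.sum_const, Finset.sum_const, Finset.card_univ, nsmul_eq_mul, nsmul_eq_mul] at h2
  have h3 : ((Fintype.card V : ℤ) - 2) * (∑ i, ∑ j, A i j - ∑ i, ∑ j, B i j) = 0 := by
    linear_combination h2
  rcases mul_eq_zero.1 h3 with h4 | h4
  · omega
  · have := h1 v
    linarith

section

variable {κ τ : Type*} [Fintype κ] [DecidableEq κ] [Fintype τ] [DecidableEq τ]

/-- A graph with the degrees of a split graph is split, with the same partition. -/
theorem eq_blk (C : Matrix κ τ ℤ) (B : Matrix (κ ⊕ τ) (κ ⊕ τ) ℤ) (hB : Adj B)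
    (h : ∀ v, ∑ w, blk C v w = ∑ w, B v w) : B = blk B.toBlocks₁₂ := by
  have h1 : ∀ M : Matrix (κ ⊕ τ) (κ ⊕ τ) ℤ, (∀ i j, M i j = M j i) →
      ∑ i : κ, ∑ w, M (Sum.inl i) w - ∑ t : τ, ∑ w, M (Sum.inr t) w =
        ∑ i : κ, ∑ j : κ, M (Sum.inl i) (Sum.inl j) -
          ∑ t : τ, ∑ s : τ, M (Sum.inr t) (Sum.inr s) := by
    intro M hM
    simp only [Fintype.sum_sum_type, Finset.sum_add_distrib]
    have : ∑ x : κ, ∑ x_1 : τ, M (Sum.inl x) (Sum.inr x_1) =
        ∑ x : τ, ∑ x_1 : κ, M (Sum.inr x) (Sum.inl x_1) := by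
      rw [Finset.sum_comm]
      exact Finset.sum_congr rfl fun i _ => Finset.sum_congr rfl fun j _ => hM _ _
    rw [this]
    ring
  have hsb : ∀ i j, blk C i j = blk C j i := by
    intro i j
    rcases i with i | i <;> rcases j with j | j <;>
      simp [blk, J, Matrix.one_apply, eq_comm]
  have h2 := h1 (blk C) hsb
  have h3 := h1 B hB.symm
  have h4 : ∑ i : κ, ∑ w, blk C (Sum.inl i) w = ∑ i : κ, ∑ w, B (Sum.inl i) w :=
    Finset.sum_congr rfl fun i _ => h _
  have h5 : ∑ t : τ, ∑ w, blk C (Sum.inr t) w = ∑ t : τ, ∑ w, B (Sum.inr t) w :=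
    Finset.sum_congr rfl fun i _ => h _
  have h6 : ∑ t : τ, ∑ s : τ, blk C (Sum.inr t) (Sum.inr s) = 0 := by simp [blk]
  rw [h4, h5, h3, h6, sub_zero] at h2
  have h7 : ∑ i : κ, ∑ j : κ, (blk C (Sum.inl i) (Sum.inl j) - B (Sum.inl i) (Sum.inl j)) +
      ∑ t : τ, ∑ s : τ, B (Sum.inr t) (Sum.inr s) = 0 := by
    simp only [Finset.sum_sub_distrib]
    linear_combination -h2
  have h8 : ∀ i j : κ, 0 ≤ blk C (Sum.inl i) (Sum.inl j) - B (Sum.inl i) (Sum.inl j) := by
    intro i j
    by_cases hij : i = j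
    · subst hij
      rw [hB.diag]
      simp [blk, J]
    · have : blk C (Sum.inl i) (Sum.inl j) = 1 := by simp [blk, J, hij]
      rw [this]
      rcases hB.zo (Sum.inl i) (Sum.inl j) with h | h <;> rw [h] <;> norm_num
  have h9 : ∀ t s : τ, 0 ≤ B (Sum.inr t) (Sum.inr s) := by
    intro t s
    rcases hB.zo (Sum.inr t) (Sum.inr s) with h | h <;> rw [h]
    norm_num
  have h10 : ∑ i : κ, ∑ j : κ, (blk C (Sum.inl i) (Sum.inl j) - B (Sum.inl i) (Sum.inl j)) = 0 := by
    have a1 : 0 ≤ ∑ i : κ, ∑ j : κ, (blk C (Sum.inl i) (Sum.inl j) - B (Sum.inl i) (Sum.inl j)) :=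
      Finset.sum_nonneg fun i _ => Finset.sum_nonneg fun j _ => h8 i j
    have a2 : 0 ≤ ∑ t : τ, ∑ s : τ, B (Sum.inr t) (Sum.inr s) :=
      Finset.sum_nonneg fun i _ => Finset.sum_nonneg fun j _ => h9 i j
    linarith
  have h11 : ∑ t : τ, ∑ s : τ, B (Sum.inr t) (Sum.inr s) = 0 := by linarith
  have h12 : ∀ i j : κ, blk C (Sum.inl i) (Sum.inl j) = B (Sum.inl i) (Sum.inl j) := by
    intro i j
    have := (Finset.sum_eq_zero_iff_of_nonneg
      (fun i _ => Finset.sum_nonneg fun j _ => h8 i j)).1 h10 i (Finset.mem_univ i)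
    have := (Finset.sum_eq_zero_iff_of_nonneg (fun j _ => h8 i j)).1 this j (Finset.mem_univ j)
    linarith
  have h13 : ∀ t s : τ, B (Sum.inr t) (Sum.inr s) = 0 := by
    intro i j
    have := (Finset.sum_eq_zero_iff_of_nonneg
      (fun i _ => Finset.sum_nonneg fun j _ => h9 i j)).1 h11 i (Finset.mem_univ i)
    exact (Finset.sum_eq_zero_iff_of_nonneg (fun j _ => h9 i j)).1 this j (Finset.mem_univ j)
  ext i j
  rcases i with i | i <;> rcases j with j | j
  · rw [← h12]
    simp [blk]
  · simp [blk, Matrix.toBlocks₁₂]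
  · rw [hB.symm]
    simp [blk, Matrix.toBlocks₁₂]
  · rw [h13]
    simp [blk]

/-- Split graphs with the same labelled deck. -/
theorem split_core (C : Matrix κ τ ℤ) (B : Matrix (κ ⊕ τ) (κ ⊕ τ) ℤ) (hA : Adj (blk C))
    (hB : Adj B) (hn : 3 ≤ Fintype.card (κ ⊕ τ))
    (h : ∀ v, (del (blk C) v).charpoly = (del B v).charpoly) :
    (blk C).charpoly = B.charpoly := by
  have hrow := row_sums (blk C) B hA hB hn h
  have hBD := eq_blk C B hB hrow
  set D := B.toBlocks₁₂ with hD
  by_cases hk : 3 ≤ Fintype.card κ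
  · rw [hBD]
    refine blk_core C D hk fun i => ?_
    rw [h, ← hBD]
  · have hCzo : ∀ i t, C i t = 0 ∨ C i t = 1 := fun i t => by
      simpa [blk] using hA.zo (Sum.inl i) (Sum.inr t)
    have hDzo : ∀ i t, D i t = 0 ∨ D i t = 1 := fun i t => hB.zo (Sum.inl i) (Sum.inr t)
    have hr : ∀ i, ∑ t, C i t = ∑ t, D i t := by
      intro i
      have h1 := hrow (Sum.inl i)
      rw [hBD, Fintype.sum_sum_type, Fintype.sum_sum_type] at h1
      simp only [blk, Matrix.fromBlocks_apply₁₁, Matrix.fromBlocks_apply₁₂] at h1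
      linarith
    have hcs : ∀ t, ∑ i, C i t = ∑ i, D i t := by
      intro t
      have h1 := hrow (Sum.inr t)
      rw [hBD, Fintype.sum_sum_type, Fintype.sum_sum_type] at h1
      simp only [blk, Matrix.fromBlocks_apply₂₁, Matrix.fromBlocks_apply₂₂,
        Matrix.transpose_apply] at h1
      linarith
    have hdiag : ∀ E : Matrix κ τ ℤ, (∀ i t, E i t = 0 ∨ E i t = 1) → ∀ i,
        (E * E.transpose) i i = ∑ t, E i t := by
      intro E hE i
      rw [Matrix.mul_apply]
      refine Finset.sum_congr rfl fun t _ => ?_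
      rw [Matrix.transpose_apply]
      rcases hE i t with h | h <;> rw [h] <;> norm_num
    have hSS : C * C.transpose = D * D.transpose := by
      ext i j
      by_cases hij : i = j
      · subst hij
        rw [hdiag C hCzo, hdiag D hDzo, hr]
      · have huniv : (Finset.univ : Finset κ) = {i, j} := by
          refine (Finset.eq_of_subset_of_card_le (Finset.subset_univ _) ?_).symm
          rw [Finset.card_pair hij, Finset.card_univ]
          omega
        have hc2 : ∀ t, C i t + C j t = D i t + D j t := by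
          intro t
          have := hcs t
          rwa [huniv, Finset.sum_pair hij, Finset.sum_pair hij] at this
        have hsq : ∀ E : Matrix κ τ ℤ, ∑ t, (E i t + E j t) ^ 2 =
            (E * E.transpose) i i + 2 * (E * E.transpose) i j + (E * E.transpose) j j := by
          intro E
          simp only [Matrix.mul_apply, Matrix.transpose_apply]
          rw [Finset.mul_sum, ← Finset.sum_add_distrib, ← Finset.sum_add_distrib]
          refine Finset.sum_congr rfl fun t _ => ?_
          ring
        have e1 := hsq C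
        have e2 := hsq D
        simp_rw [hc2] at e1
        rw [e2, hdiag C hCzo, hdiag C hCzo, hdiag D hDzo, hdiag D hDzo, hr, hr] at e1
        linarith
    have hC := charpoly_blk C
    have hD' := charpoly_blk D
    rw [hSS, ← hD'] at hC
    rw [hBD]
    exact mul_left_cancel₀ (pow_ne_zero _ X_ne_zero) hC

end

/-- Relabelling and cards. -/
theorem charpoly_del_submatrix {V' : Type*} [Fintype V'] [DecidableEq V'] (A : Matrix V V ℤ)
    (e : V' ≃ V) (v : V') :
    (del (A.submatrix e e) v).charpoly = (del A (e v)).charpoly := by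
  let f : {w : V' // w ≠ v} ≃ {w : V // w ≠ e v} :=
    e.subtypeEquiv (fun a => by simp)
  rw [← Matrix.charpoly_reindex f (del (A.submatrix e e) v)]
  congr 1
  ext ⟨a, ha⟩ ⟨b, hb⟩
  simp [del, f]

theorem main {n : ℕ} (hn : 3 ≤ n) (A B : Matrix (Fin n) (Fin n) ℤ) (hA : Adj A) (hB : Adj B)
    (K : Finset (Fin n)) (hK : ∀ i ∈ K, ∀ j ∈ K, i ≠ j → A i j = 1)
    (hI : ∀ i, i ∉ K → ∀ j, j ∉ K → A i j = 0)
    (h : (Finset.univ : Finset (Fin n)).val.map (fun v => (del A v).charpoly) =
      (Finset.univ : Finset (Fin n)).val.map (fun v => (del B v).charpoly)) :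
    A.charpoly = B.charpoly := by
  classical
  -- the bijection of the cards
  obtain ⟨σ, hσ⟩ : ∃ σ : Fin n ≃ Fin n, ∀ v, (del B (σ v)).charpoly = (del A v).charpoly := by
    have hcount : ∀ c : ℤ[X], Fintype.card {a : Fin n // (del A a).charpoly = c} =
        Fintype.card {b : Fin n // (del B b).charpoly = c} := by
      intro c
      have h1 := congrArg (Multiset.count c) h
      rw [Multiset.count_map, Multiset.count_map] at h1
      rw [Fintype.card_subtype, Fintype.card_subtype]
      simp only [Finset.card, Finset.filter]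
      simpa [eq_comm] using h1
    let e0 : ∀ c : ℤ[X], {a : Fin n // (fun v => (del A v).charpoly) a = c} ≃
        {b : Fin n // (fun v => (del B v).charpoly) b = c} :=
      fun c => Fintype.equivOfCardEq (hcount c)
    exact ⟨Equiv.ofFiberEquiv e0, fun v => Equiv.ofFiberEquiv_map e0 v⟩
  let e : {v : Fin n // v ∈ K} ⊕ {v : Fin n // ¬ v ∈ K} ≃ Fin n := Equiv.sumCompl (· ∈ K)
  set A' := A.submatrix e e with hA'
  set B' := B.submatrix (e.trans σ) (e.trans σ) with hB'
  have hblk : A' = blk A'.toBlocks₁₂ := by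
    ext i j
    rcases i with i | i <;> rcases j with j | j
    · by_cases hij : i = j
      · subst hij
        simp [hA', blk, J, hA.diag]
      · have h1 : (i : Fin n) ≠ j := fun h => hij (Subtype.ext h)
        have h2 := hK i i.2 j j.2 h1
        simp [hA', blk, J, hij, e, h2]
    · simp [blk, Matrix.toBlocks₁₂]
    · simp [blk, Matrix.toBlocks₁₂, hA', hA.symm (e (Sum.inr i))]
    · have h2 := hI i i.2 j j.2
      simp [hA', blk, e, h2]
  have hcard : Fintype.card ({v : Fin n // v ∈ K} ⊕ {v : Fin n // ¬ v ∈ K}) = n := by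
    rw [Fintype.card_congr e, Fintype.card_fin]
  have h1 := split_core A'.toBlocks₁₂ B' (hblk ▸ hA.submatrix e) (hB.submatrix _)
    (by rw [hcard]; exact hn) (by
      intro v
      rw [← hblk, hA', hB', charpoly_del_submatrix, charpoly_del_submatrix]
      exact (hσ (e v)).symm)
  rw [← hblk] at h1
  have h2 : A'.charpoly = A.charpoly := by
    rw [hA', ← Matrix.charpoly_reindex e (A.submatrix e e)]
    congr 1
    ext i j
    simp
  have h3 : B'.charpoly = B.charpoly := by
    rw [hB', ← Matrix.charpoly_reindex (e.trans σ) (B.submatrix (e.trans σ) (e.trans σ))]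
    congr 1
    ext i j
    simp
  rw [← h2, h1, h3]

end Pool.Agent.MP2696
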